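import Pool.Agent.Y142.ZD.Top
import Pool.Agent.Y142.ZI.Fin
import Pool.Agent.Y142.ZS.Fin

/-!
# Project ZD: the start data from conditions on complex roots
-/

set_option autoImplicit false
set_option linter.style.haveILetI false

open Matrix Polynomial Filter Topology NumberField IsDedekindDomain
open Pool.Agent.Y142.ZO Pool.Agent.Y142.ZI
open Pool.Agent.Y142.ZS (Generic NiceP restrict0 nice_of_p push_C)

namespace Pool.Agent.Y142.ZD

section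
variable {K : Type} [Field K] [NumberField K] {N : ℕ} {S : Set (HeightOneSpectrum (𝓞 K))}
  {P : HeightOneSpectrum (𝓞 K) → ℚ[X]}

theorem nice_of_complexE
    (ρ : ∀ (ℓ : ℕ) [Fact ℓ.Prime], GK K →* Matrix (Fin N) (Fin N) ℚ_[ℓ])
    (B : ∀ (ℓ : ℕ) [Fact ℓ.Prime], Matrix (Fin N) (Fin N) ℚ_[ℓ])
    (hsys : ∀ (ℓ : ℕ) [Fact ℓ.Prime], Orthogonal K N ℓ (ρ ℓ) (B ℓ) S P)
    {v : HeightOneSpectrum (𝓞 K)} (hv : v ∉ S) (hsep : (P v).Separable)
    (h2 : ∀ n : ℕ, 0 < n → ∀ x y : ℂ, aeval x (P v) = 0 → aeval y (P v) = 0 → x ^ n = y ^ n → x = y) :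
    NiceP S P v := by
  obtain ⟨jc⟩ := nonempty_LC
  refine ⟨hv, (ZI.monic_of_sys ρ B hsys hv).1, hsep, ?_⟩
  intro j x y hj hx hy hxy
  apply jc.injective
  refine h2 j hj _ _ (push_C jc hx) (push_C jc hy) ?_
  rw [← map_pow, hxy, map_pow]

/-- the start data from conditions on complex roots -/
theorem start_of_complex (hN : 1 < N)
    (ρ : ∀ (ℓ : ℕ) [Fact ℓ.Prime], GK K →* Matrix (Fin N) (Fin N) ℚ_[ℓ])
    (B : ∀ (ℓ : ℕ) [Fact ℓ.Prime], Matrix (Fin N) (Fin N) ℚ_[ℓ])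
    (hsys : ∀ (ℓ : ℕ) [Fact ℓ.Prime], Orthogonal K N ℓ (ρ ℓ) (B ℓ) S P)
    (σ : GK ℚ) (v : ℕ → HeightOneSpectrum (𝓞 K))
    (hv : ∀ d : ℕ, 0 < d → d < N → v d ∉ S ∧ (P (v d)).Separable ∧
        (∀ n : ℕ, 0 < n → ∀ x y : ℂ, aeval x (P (v d)) = 0 → aeval y (P (v d)) = 0 →
          x ^ n = y ^ n → x = y) ∧
        ∀ T : Set QQ, (∀ x ∈ T, aeval x (P (v d)) = 0) → (∀ x ∈ T, σ x ∈ T) → T.ncard ≠ d)
    {w : HeightOneSpectrum (𝓞 K)} (hw : w ∉ S) (hwsep : (P w).Separable)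
    (hwpow : ∀ n : ℕ, 0 < n → ∀ x y : ℂ, aeval x (P w) = 0 → aeval y (P w) = 0 → x ^ n = y ^ n →
      x = y)
    (hw1 : ∀ x : ℂ, aeval x (P w) = 0 → x ≠ 1 ∧ x ≠ -1)
    (hwgen : ∀ x y z u : ℂ, aeval x (P w) = 0 → aeval y (P w) = 0 → aeval z (P w) = 0 →
      aeval u (P w) = 0 → x ≠ y → x * u = z * y → (z = x ∧ u = y) ∨ (z * y = 1 ∧ u * x = 1))
    (hfix : ∃ x : QQ, aeval x (P w) = 0 ∧ σ x = x) : StartData N S P := by
  obtain ⟨jc⟩ := nonempty_LC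
  refine ⟨σ, fun d => if 0 < d ∧ d < N then v d else v 1, w, ?_, ?_, ?_, hfix⟩
  · intro d
    beta_reduce
    by_cases hd : 0 < d ∧ d < N
    · rw [if_pos hd]
      obtain ⟨h1, h2, h3, -⟩ := hv d hd.1 hd.2
      exact nice_of_complexE ρ B hsys h1 h2 h3
    · rw [if_neg hd]
      obtain ⟨h1, h2, h3, -⟩ := hv 1 one_pos hN
      exact nice_of_complexE ρ B hsys h1 h2 h3
  · intro d hd0 hdN
    beta_reduce
    rw [if_pos ⟨hd0, hdN⟩]
    exact (hv d hd0 hdN).2.2.2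
  · refine ⟨nice_of_complexE ρ B hsys hw hwsep hwpow, ?_, ?_⟩
    · intro x hx hxx
      obtain ⟨h1, h2⟩ := hw1 (jc x) (push_C jc hx)
      rcases mul_self_eq_one_iff.1 hxx with h | h
      · exact h1 (by rw [h, map_one])
      · exact h2 (by rw [h, map_neg, map_one])
    · intro x y z u hx hy hz hu hxy hxu
      rcases hwgen (jc x) (jc y) (jc z) (jc u) (push_C jc hx) (push_C jc hy) (push_C jc hz)
        (push_C jc hu) (fun h => hxy (jc.injective h)) (by rw [← map_mul, ← map_mul, hxu]) with h | h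
      · exact Or.inl ⟨jc.injective h.1, jc.injective h.2⟩
      · right
        rw [← map_mul, ← map_mul, ← map_one jc] at h
        exact ⟨jc.injective h.1, jc.injective h.2⟩

end

end Pool.Agent.Y142.ZD
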