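import Pool.Agent.Y142.ZD.Stm
import Pool.Agent.Y142.ZS.Surj

/-!
# Project ZD: classes of Galois elements, strong irreducibility, full Lie algebra
-/

set_option autoImplicit false
set_option linter.style.haveILetI false

open Matrix Polynomial Filter Topology NumberField IsDedekindDomain
open Pool.Agent.Y142.ZO Pool.Agent.Y142.ZI
open Pool.Agent.Y142.ZS (Generic NiceP restrict0)

namespace Pool.Agent.Y142.ZD

/-- restriction of the automorphisms over the maximal unramified extension -/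
theorem resNR (hNR : S_NR) (ℓ : ℕ) [Fact ℓ.Prime] (ι : QQ →+* AlgebraicClosure ℚ_[ℓ]) (f : ℤ[X])
    (hf : f.Monic) (hfs : (f.map (Int.castRingHom (ZMod ℓ))).Separable)
    (M : IntermediateField ℚ QQ) (hMf : M ≤ IntermediateField.adjoin ℚ {x : QQ | aeval x f = 0})
    (τ : AlgebraicClosure ℚ_[ℓ] ≃ₐ[NR ℓ] AlgebraicClosure ℚ_[ℓ]) :
    ∃ σ : GK ℚ, (∀ x ∈ M, σ x = x) ∧ ∀ x : QQ, τ (ι x) = ι (σ x) := by
  obtain ⟨σ, hσ⟩ := restrict0 ℓ ι (τ.restrictScalars ℚ_[ℓ])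
  refine ⟨σ, fun x hx => ?_, fun x => hσ x⟩
  have h1 := embed_adjoin ℓ ι f (hMf hx)
  have h2 : IntermediateField.adjoin ℚ_[ℓ] {x : AlgebraicClosure ℚ_[ℓ] | aeval x f = 0} ≤ NR ℓ := by
    rw [IntermediateField.adjoin_le_iff]
    intro y hy
    exact (hNR ℓ).2.1 f hf hfs y hy
  have h3 : τ (ι x) = ι x := τ.commutes ⟨ι x, h2 h1⟩
  apply ι.injective
  rw [← h3]
  exact (hσ x).symm

/-- Galois elements without stable sets of `d` roots -/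
def Cl (Q : ℚ[X]) (d : ℕ) : Set (GK ℚ) :=
  {g | ∀ T : Set QQ, (∀ x ∈ T, aeval x Q = 0) → (∀ x ∈ T, g x ∈ T) → T.ncard ≠ d}

/-- Galois elements which fix a root -/
def Fx (Q : ℚ[X]) : Set (GK ℚ) := {g | ∃ x : QQ, aeval x Q = 0 ∧ g x = x}

theorem cl_conj {Q : ℚ[X]} {d : ℕ} {g : GK ℚ} (hg : g ∈ Cl Q d) (h : GK ℚ) :
    h * g * h⁻¹ ∈ Cl Q d := by
  intro T hT hTs hd
  have hinj : Function.Injective (fun x : QQ => h⁻¹ x) := (h⁻¹ : GK ℚ).injective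
  refine hg ((fun x : QQ => h⁻¹ x) '' T) ?_ ?_ ?_
  · rintro _ ⟨x, hx, rfl⟩
    exact aeval_aut _ (hT x hx)
  · rintro _ ⟨x, hx, rfl⟩
    refine ⟨(h * g * h⁻¹) x, hTs x hx, ?_⟩
    show h⁻¹ ((h * g * h⁻¹) x) = g (h⁻¹ x)
    rw [← AlgEquiv.mul_apply, ← AlgEquiv.mul_apply]
    congr 1
    group
  · rw [Set.ncard_image_of_injective _ hinj]
    exact hd

theorem cl_mul {Q : ℚ[X]} {d : ℕ} {g : GK ℚ} (hg : g ∈ Cl Q d) {u : GK ℚ}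
    (hu : ∀ x : QQ, aeval x Q = 0 → u x = x) : g * u ∈ Cl Q d := by
  intro T hT hTs
  refine hg T hT fun x hx => ?_
  have h1 := hTs x hx
  rwa [AlgEquiv.mul_apply, hu x (hT x hx)] at h1

theorem fx_conj {Q : ℚ[X]} {g : GK ℚ} (hg : g ∈ Fx Q) (h : GK ℚ) : h * g * h⁻¹ ∈ Fx Q := by
  obtain ⟨x, hx, hgx⟩ := hg
  refine ⟨h x, aeval_aut _ hx, ?_⟩
  rw [AlgEquiv.mul_apply, AlgEquiv.mul_apply, ← AlgEquiv.mul_apply h⁻¹ h, inv_mul_cancel,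
    AlgEquiv.one_apply, hgx]

theorem fx_mul {Q : ℚ[X]} {g : GK ℚ} (hg : g ∈ Fx Q) {u : GK ℚ}
    (hu : ∀ x : QQ, aeval x Q = 0 → u x = x) : g * u ∈ Fx Q := by
  obtain ⟨x, hx, hgx⟩ := hg
  exact ⟨x, hx, by rw [AlgEquiv.mul_apply, hu x hx, hgx]⟩

set_option linter.unusedSectionVars false

section
variable {K : Type} [Field K] [NumberField K] {N : ℕ} {S : Set (HeightOneSpectrum (𝓞 K))}
  {P : HeightOneSpectrum (𝓞 K) → ℚ[X]}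

/-- a nice place with generic roots -/
def GenO (S : Set (HeightOneSpectrum (𝓞 K))) (P : HeightOneSpectrum (𝓞 K) → ℚ[X])
    (v : HeightOneSpectrum (𝓞 K)) : Prop :=
  NiceP S P v ∧ (∀ x : QQ, aeval x (P v) = 0 → x * x ≠ 1) ∧
    ∀ x y z w : QQ, aeval x (P v) = 0 → aeval y (P v) = 0 → aeval z (P v) = 0 →
      aeval w (P v) = 0 → x ≠ y → x * w = z * y → (z = x ∧ w = y) ∨ (z * y = 1 ∧ w * x = 1)

theorem dist_of_nice {v : HeightOneSpectrum (𝓞 K)} (hv : NiceP S P v) (ℓ : ℕ) [Fact ℓ.Prime] :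
    DistPow ℓ ((P v).map (algebraMap ℚ ℚ_[ℓ])) := by
  obtain ⟨-, hmon, -, hpow⟩ := hv
  intro k x y hk hx hy hxy
  obtain ⟨ι⟩ := emb ℓ
  obtain ⟨r, hr, rfl⟩ := lift_root ℓ ι hmon.ne_zero hx
  obtain ⟨s, hs, rfl⟩ := lift_root ℓ ι hmon.ne_zero hy
  rw [← map_pow, ← map_pow] at hxy
  rw [hpow k r s hk hr hs (ι.injective hxy)]

theorem generic_of_gen {v : HeightOneSpectrum (𝓞 K)} (hv : GenO S P v) (ℓ : ℕ) [Fact ℓ.Prime] :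
    Generic ((P v).map (algebraMap ℚ ℚ_[ℓ])) 1 := by
  obtain ⟨⟨-, hmon, -, -⟩, -, hgen⟩ := hv
  intro x' y' z' w' hx' hy' hz' hw' hxy hxw
  obtain ⟨ι⟩ := emb ℓ
  obtain ⟨x, hx, rfl⟩ := lift_root ℓ ι hmon.ne_zero hx'
  obtain ⟨y, hy, rfl⟩ := lift_root ℓ ι hmon.ne_zero hy'
  obtain ⟨z, hz, rfl⟩ := lift_root ℓ ι hmon.ne_zero hz'
  obtain ⟨w, hw, rfl⟩ := lift_root ℓ ι hmon.ne_zero hw'
  rw [← map_mul, ← map_mul] at hxw
  rcases hgen x y z w hx hy hz hw (fun h => hxy (by rw [h])) (ι.injective hxw) with h | h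
  · left
    rw [h.1, h.2]
    exact ⟨rfl, rfl⟩
  · right
    rw [map_one, ← map_mul, ← map_mul, h.1, h.2, map_one]
    exact ⟨rfl, rfl⟩

/-- stable subspaces of dimension `d` -/
def SubDim (ℓ : ℕ) [Fact ℓ.Prime] (ρ : GK K →* Matrix (Fin N) (Fin N) ℚ_[ℓ]) (d : ℕ) : Prop :=
  ∃ (U : Subgroup (GK K)) (W : Submodule ℚ_[ℓ] (Fin N → ℚ_[ℓ])), IsOpen (U : Set (GK K)) ∧
    (∀ σ ∈ U, ∀ w ∈ W, ρ σ *ᵥ w ∈ W) ∧ Module.finrank ℚ_[ℓ] W = d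

theorem strong_iff (ℓ : ℕ) [Fact ℓ.Prime] (ρ : GK K →* Matrix (Fin N) (Fin N) ℚ_[ℓ])
    (h : ∀ d, 0 < d → d < N → ¬ SubDim ℓ ρ d) : StronglyIrreducible ℓ ρ := by
  intro U W hU hW
  rcases Nat.eq_zero_or_pos (Module.finrank ℚ_[ℓ] W) with h0 | h0
  · exact Or.inl (Submodule.finrank_eq_zero.1 h0)
  right
  have h1 : Module.finrank ℚ_[ℓ] W ≤ N := by
    have := Submodule.finrank_le W
    rwa [Module.finrank_fin_fun] at this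
  rcases h1.eq_or_lt with h2 | h2
  · apply Submodule.eq_top_of_finrank_eq
    rw [h2, Module.finrank_fin_fun]
  · exact absurd ⟨U, W, hU, hW, rfl⟩ (h _ h0 h2)

theorem no_sub (hBADD : S_BADD) {v : HeightOneSpectrum (𝓞 K)} (hv : NiceP S P v) (ℓ : ℕ)
    [hℓ : Fact ℓ.Prime] (hvℓ : (ℓ : 𝓞 K) ∉ v.asIdeal)
    (ρ : GK K →* Matrix (Fin N) (Fin N) ℚ_[ℓ]) (B : Matrix (Fin N) (Fin N) ℚ_[ℓ])
    (hsys : Orthogonal K N ℓ ρ B S P) {d : ℕ} {s : GK ℚ} (hs : s ∈ Cl (P v) d)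
    (hsub : ∀ R : ℚ_[ℓ][X], R.Monic → R ∣ (P v).map (algebraMap ℚ ℚ_[ℓ]) →
      ∃ T : Set QQ, (∀ x ∈ T, aeval x (P v) = 0) ∧ T.ncard = R.natDegree ∧ ∀ x ∈ T, s x ∈ T) :
    ¬ SubDim ℓ ρ d := by
  rintro ⟨U, W, hU, hW, hd⟩
  obtain ⟨hcont, -, -, -, hfrob⟩ := hsys
  obtain ⟨σ, hσ⟩ := Pool.Agent.W401.Frob.exists_frob v
  have hchar := hfrob v hv.1 hvℓ σ hσ
  obtain ⟨R, hR, hRd, hRdvd⟩ := hBADD ℓ N (GK K) ρ hcont U W hU hW σ⁻¹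
    (by rw [hchar]; exact hv.2.2.1.map) (by rw [hchar]; exact dist_of_nice hv ℓ)
  rw [hchar] at hRdvd
  obtain ⟨T, hT1, hT2, hT3⟩ := hsub R hR hRdvd
  exact hs T hT1 hT3 (by rw [hT2, hRd, hd])

theorem full_of (hTAN : S_TAN) (hABS : S_ABS) (hROOTE : S_ROOTE)
    {w : HeightOneSpectrum (𝓞 K)} (hw : GenO S P w) (ℓ : ℕ) [hℓ : Fact ℓ.Prime]
    (hwℓ : (ℓ : 𝓞 K) ∉ w.asIdeal)
    (ρ : GK K →* Matrix (Fin N) (Fin N) ℚ_[ℓ]) (B : Matrix (Fin N) (Fin N) ℚ_[ℓ])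
    (hsys : Orthogonal K N ℓ ρ B S P)
    (hroot : ∃ a : ℚ_[ℓ], ((P w).map (algebraMap ℚ ℚ_[ℓ])).eval a = 0)
    (hirr : StronglyIrreducible ℓ ρ) : FullLie ℓ ρ B := by
  have hnice := hw.1
  obtain ⟨hcont, hB, hdet, hiso, hfrob⟩ := hsys
  obtain ⟨σ, hσ⟩ := Pool.Agent.W401.Frob.exists_frob w
  have hchar := hfrob w hnice.1 hwℓ σ hσ
  obtain ⟨𝔤, h𝔤, hbr, had, hskew⟩ := hTAN ℓ N (GK K) ρ
  set g : Matrix (Fin N) (Fin N) ℚ_[ℓ] := ρ σ⁻¹ with hg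
  have hinv : g⁻¹ = ρ σ := by
    apply Matrix.inv_eq_right_inv
    rw [hg, ← map_mul, inv_mul_cancel, map_one]
  have hsep : g.charpoly.Separable := by rw [hchar]; exact hnice.2.2.1.map
  intro X hX
  refine (h𝔤 X).1 (hROOTE ℚ_[ℓ] N B g 𝔤 hB hdet (hiso _) hsep
    (by rw [hchar]; exact generic_of_gen hw ℓ) ?_ (fun Z hZ => hskew B hB hiso Z hZ) hbr ?_ ?_ X hX)
  · intro x hx
    obtain ⟨ι⟩ := emb ℓ
    rw [hchar] at hx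
    obtain ⟨r, hr, rfl⟩ := lift_root ℓ ι hnice.2.1.ne_zero hx
    rw [← map_mul]
    intro h
    exact hw.2.1 r hr (ι.injective (by rw [h, map_one]))
  · intro Z hZ
    rw [hinv]
    have := had σ⁻¹ Z hZ
    rwa [inv_inv] at this
  · intro 𝒜 h𝒜
    exact hABS ℓ N (GK K) ρ hcont hirr σ⁻¹ hsep (by rw [← hg, hchar]; exact dist_of_nice hnice ℓ)
      (by rw [← hg, hchar]; exact hroot) 𝒜 fun X hX => h𝒜 X ((h𝔤 X).2 hX)

/-- the start data: one Galois element and good places -/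
def StartData (N : ℕ) (S : Set (HeightOneSpectrum (𝓞 K))) (P : HeightOneSpectrum (𝓞 K) → ℚ[X]) :
    Prop :=
  ∃ (s : GK ℚ) (v : ℕ → HeightOneSpectrum (𝓞 K)) (w : HeightOneSpectrum (𝓞 K)),
    (∀ d, NiceP S P (v d)) ∧ (∀ d, 0 < d → d < N → s ∈ Cl (P (v d)) d) ∧ GenO S P w ∧ s ∈ Fx (P w)

/-- infinitely many primes with full Lie algebra -/
theorem inf_open (hTAN : S_TAN) (hABS : S_ABS) (hROOTE : S_ROOTE) (hBADD : S_BADD) (hPOS : S_POS)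
    (hSUB : S_SUB)
    (ρ : ∀ (ℓ : ℕ) [Fact ℓ.Prime], GK K →* Matrix (Fin N) (Fin N) ℚ_[ℓ])
    (B : ∀ (ℓ : ℕ) [Fact ℓ.Prime], Matrix (Fin N) (Fin N) ℚ_[ℓ])
    (hsys : ∀ (ℓ : ℕ) [Fact ℓ.Prime], Orthogonal K N ℓ (ρ ℓ) (B ℓ) S P)
    (hstart : StartData N S P) (b : ℕ) :
    ∃ ℓ : ℕ, b < ℓ ∧ ∃ _ : Fact ℓ.Prime, FullLie ℓ (ρ ℓ) (B ℓ) := by
  classical
  obtain ⟨s, v, w, hv, hcl, hw, hfx⟩ := hstart
  have hb : ∀ d, ∃ b : ℕ, ∀ ℓ : ℕ, b < ℓ → ∀ _ : Fact ℓ.Prime, ∀ σ : GK ℚ, FrobAt ℓ σ →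
    (∀ R : ℚ_[ℓ][X], R.Monic → R ∣ (P (v d)).map (algebraMap ℚ ℚ_[ℓ]) →
      ∃ T : Set QQ, (∀ x ∈ T, aeval x (P (v d)) = 0) ∧ T.ncard = R.natDegree ∧
        ∀ x ∈ T, σ x ∈ T) := by
    intro d
    obtain ⟨b, hb⟩ := hSUB (P (v d)) (hv d).2.1 (hv d).2.2.1
    exact ⟨b, fun ℓ h1 h2 σ h3 => (hb ℓ h1 h2 σ h3).1⟩
  choose bd hbd using hb
  obtain ⟨bw, hbw⟩ := hSUB (P w) hw.1.2.1 hw.1.2.2.1
  set PP : ℚ[X] := P w * ∏ d ∈ Finset.range N, P (v d) with hPP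
  have hPP0 : PP ≠ 0 :=
    mul_ne_zero hw.1.2.1.ne_zero (Finset.prod_ne_zero_iff.2 fun d _ => (hv d).2.1.ne_zero)
  set L : IntermediateField ℚ QQ := Lf PP with hL
  have hz : ZI.DensityZero (∅ : Set ℕ) := by
    unfold ZI.DensityZero
    simp
  set C : Set (GK ℚ) := {g | (∀ d, 0 < d → d < N → g ∈ Cl (P (v d)) d) ∧ g ∈ Fx (P w)} with hC
  have hfixd : ∀ u ∈ fixSub L, ∀ d, d < N → ∀ x : QQ, aeval x (P (v d)) = 0 → u x = x := by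
    intro u hu d hd x hx
    refine mem_fixSub.1 hu x (mem_Lf hPP0 ?_)
    rw [hPP, map_mul, map_prod, Finset.prod_eq_zero (Finset.mem_range.2 hd) hx, mul_zero]
  have hfixw : ∀ u ∈ fixSub L, ∀ x : QQ, aeval x (P w) = 0 → u x = x := by
    intro u hu x hx
    refine mem_fixSub.1 hu x (mem_Lf hPP0 ?_)
    rw [hPP, map_mul, hx, zero_mul]
  obtain ⟨ℓ, hℓ, hp, -, σ, hσ, hσℓ⟩ := hPOS (fixSub L) (fixSub_normal _ (Lf_normal _))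
    (fixSub_open _ (Lf_finite _)) C ⟨s, hcl, hfx⟩
    (fun g hg h => ⟨fun d h1 h2 => cl_conj (hg.1 d h1 h2) h, fx_conj hg.2 h⟩)
    (fun g hg u hu => ⟨fun d h1 h2 => cl_mul (hg.1 d h1 h2) (hfixd u hu d h2),
      fx_mul hg.2 (hfixw u hu)⟩) ∅ hz
    (max (max b bw) (max (Ideal.absNorm w.asIdeal)
      ((Finset.range N).sup fun d => max (bd d) (Ideal.absNorm (v d).asIdeal))))
  simp only [max_lt_iff] at hℓ
  haveI : Fact ℓ.Prime := ⟨hp⟩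
  have hsup : ∀ d, d < N → bd d < ℓ ∧ Ideal.absNorm (v d).asIdeal < ℓ := by
    intro d hd
    have h1 := Finset.le_sup (f := fun d => max (bd d) (Ideal.absNorm (v d).asIdeal))
      (Finset.mem_range.2 hd)
    have h2 := h1.trans_lt hℓ.2.2
    exact max_lt_iff.1 h2
  refine ⟨ℓ, hℓ.1.1, ⟨hp⟩, ?_⟩
  refine full_of hTAN hABS hROOTE hw ℓ (not_mem_of_lt w hp hℓ.2.1) (ρ ℓ) (B ℓ) (hsys ℓ)
    ((hbw ℓ hℓ.1.2 ⟨hp⟩ σ hσℓ).2 hσ.2) (strong_iff ℓ (ρ ℓ) fun d hd0 hdN => ?_)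
  exact no_sub hBADD (hv d) ℓ (not_mem_of_lt _ hp (hsup d hdN).2) (ρ ℓ) (B ℓ) (hsys ℓ)
    (hσ.1 d hd0 hdN) (hbd d ℓ (hsup d hdN).1 ⟨hp⟩ σ hσℓ)

/-- the valuation of the discriminant is even for almost all primes -/
theorem even_det (hDISCE : S_DISCE) (hN : Even N)
    (ρ : ∀ (ℓ : ℕ) [Fact ℓ.Prime], GK K →* Matrix (Fin N) (Fin N) ℚ_[ℓ])
    (B : ∀ (ℓ : ℕ) [Fact ℓ.Prime], Matrix (Fin N) (Fin N) ℚ_[ℓ])
    (hsys : ∀ (ℓ : ℕ) [Fact ℓ.Prime], Orthogonal K N ℓ (ρ ℓ) (B ℓ) S P)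
    {w : HeightOneSpectrum (𝓞 K)} (hw : GenO S P w) :
    ∃ b : ℕ, ∀ ℓ : ℕ, b < ℓ → ∀ _ : Fact ℓ.Prime, Even (Padic.valuation (B ℓ).det) := by
  set r : ℚ := (P w).eval 1 * (P w).eval (-1) with hr
  have h1 : (P w).eval 1 ≠ 0 := by
    intro h
    have h3 : aeval (algebraMap ℚ QQ 1) (P w) = algebraMap ℚ QQ ((P w).eval 1) :=
      aeval_algebraMap_apply_eq_algebraMap_eval _ _
    rw [h, map_zero] at h3
    exact hw.2.1 _ h3 (by rw [map_one, one_mul])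
  have h2 : (P w).eval (-1) ≠ 0 := by
    intro h
    have h3 : aeval (algebraMap ℚ QQ (-1)) (P w) = algebraMap ℚ QQ ((P w).eval (-1)) :=
      aeval_algebraMap_apply_eq_algebraMap_eval _ _
    rw [h, map_zero] at h3
    exact hw.2.1 _ h3 (by rw [map_neg, map_one]; ring)
  have hr0 : r ≠ 0 := mul_ne_zero h1 h2
  refine ⟨max (Ideal.absNorm w.asIdeal) (max r.num.natAbs r.den), fun ℓ hℓ hp => ?_⟩
  simp only [max_lt_iff] at hℓ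
  obtain ⟨hcont, hB, hdet, hiso, hfrob⟩ := hsys ℓ
  obtain ⟨σ, hσ⟩ := Pool.Agent.W401.Frob.exists_frob w
  have hchar := hfrob w hw.1.1 (not_mem_of_lt w hp.out hℓ.1) σ hσ
  have e1 := eval_map_rat (F := ℚ_[ℓ]) (P w) 1
  have e2 := eval_map_rat (F := ℚ_[ℓ]) (P w) (-1)
  rw [map_one] at e1
  rw [map_neg, map_one] at e2
  have hne1 : (ρ ℓ σ⁻¹).charpoly.eval 1 ≠ 0 := by
    rw [hchar, e1]
    exact (_root_.map_ne_zero _).2 h1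
  have hne2 : (ρ ℓ σ⁻¹).charpoly.eval (-1) ≠ 0 := by
    rw [hchar, e2]
    exact (_root_.map_ne_zero _).2 h2
  obtain ⟨t, ht⟩ := hDISCE ℚ_[ℓ] N hN (B ℓ) (ρ ℓ σ⁻¹) hB (hiso _) hne1 hne2
  have hnr : ‖(r : ℚ_[ℓ])‖ = 1 := by
    have hnum : ‖((r.num : ℤ) : ℚ_[ℓ])‖ = 1 := by
      have h5 : ‖((r.num.natAbs : ℕ) : ℚ_[ℓ])‖ = 1 := norm_natCast_eq_one _ (by
        intro h
        have := Nat.le_of_dvd (Int.natAbs_pos.2 (Rat.num_ne_zero.2 hr0)) h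
        omega)
      rcases Int.natAbs_eq r.num with h6 | h6
      · rw [h6, Int.cast_natCast]; exact h5
      · rw [h6, Int.cast_neg, norm_neg, Int.cast_natCast]; exact h5
    have hden : ‖((r.den : ℕ) : ℚ_[ℓ])‖ = 1 := norm_natCast_eq_one _ (by
        intro h
        have := Nat.le_of_dvd r.den_pos h
        omega)
    rw [Rat.cast_def, norm_div, hnum, hden, div_one]
  have hval : ∀ x : ℚ_[ℓ], ‖x‖ = 1 → Padic.valuation x = 0 := by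
    intro x hx
    have hx0 : x ≠ 0 := by
      rintro rfl
      rw [norm_zero] at hx
      exact zero_ne_one hx
    have h6 := Padic.norm_eq_zpow_neg_valuation hx0
    rw [hx] at h6
    have h7 : (1 : ℝ) < (ℓ : ℝ) := by exact_mod_cast hp.out.one_lt
    have h8 : ((ℓ : ℝ) ^ (0 : ℤ)) = (ℓ : ℝ) ^ (-Padic.valuation x) := by rw [zpow_zero]; exact h6
    have h9 := (zpow_right_injective₀ (by positivity) (ne_of_gt h7)) h8
    omega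
  have ht' : (r : ℚ_[ℓ]) * (B ℓ).det = t * t := by
    rw [← ht, hchar, e1, e2, hr]
    simp
  have hr0' : (r : ℚ_[ℓ]) ≠ 0 := by exact_mod_cast hr0
  have ht0 : t ≠ 0 := by
    rintro rfl
    rw [mul_zero] at ht'
    exact mul_ne_zero hr0' hdet ht'
  have h10 := congrArg Padic.valuation ht'
  rw [Padic.valuation_mul hr0' hdet, Padic.valuation_mul ht0 ht0, hval _ hnr, zero_add] at h10
  rw [h10]
  exact ⟨_, rfl⟩

end

end Pool.Agent.Y142.ZD
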