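import Pool.Agent.Y142.ZS.Stm

set_option autoImplicit false

/-!
Project Y142-ZD (owner helper142): a zero-one law in `ℓ` for open image in the orthogonal group in even
dimension (sequel of projects Y142-ZI and Y142-ZS). Statements of the self-contained sub-tasks.
-/

open Matrix Polynomial Filter Topology NumberField IsDedekindDomain
open Pool.Agent.Y142.ZO Pool.Agent.Y142.ZI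
open Pool.Agent.Y142.ZS (Generic)

namespace Pool.Agent.Y142.ZD

/-! ### Lie algebras -/

/-- task ROOTD: an absolutely irreducible Lie algebra of skew maps which is stable under
conjugation by a generic split isometry is the algebra of all skew maps -/
def S_ROOTD : Prop := ∀ (F : Type) [Field F] [CharZero F] (N : ℕ)
  (B g : Matrix (Fin N) (Fin N) F) (𝔤 : Submodule F (Matrix (Fin N) (Fin N) F)),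
  Bᵀ = B → B.det ≠ 0 → Isom B g → g.charpoly.Splits → g.charpoly.Separable →
  Generic g.charpoly 1 → (∀ x : F, g.charpoly.eval x = 0 → x * x ≠ 1) →
  (∀ Z ∈ 𝔤, Skew B Z) → (∀ X ∈ 𝔤, ∀ Y ∈ 𝔤, X * Y - Y * X ∈ 𝔤) →
  (∀ Z ∈ 𝔤, g * Z * g⁻¹ ∈ 𝔤) →
  (∀ W : Submodule F (Fin N → F), (∀ Z ∈ 𝔤, ∀ w ∈ W, Z *ᵥ w ∈ W) → W = ⊥ ∨ W = ⊤) →
  ∀ X, Skew B X → X ∈ 𝔤

/-- task ROOTE: the same without the splitting condition, for an absolutely irreducible Lie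
algebra -/
def S_ROOTE : Prop := ∀ (F : Type) [Field F] [CharZero F] (N : ℕ)
  (B g : Matrix (Fin N) (Fin N) F) (𝔤 : Submodule F (Matrix (Fin N) (Fin N) F)),
  Bᵀ = B → B.det ≠ 0 → Isom B g → g.charpoly.Separable →
  Generic g.charpoly 1 → (∀ x : AlgebraicClosure F, aeval x g.charpoly = 0 → x * x ≠ 1) →
  (∀ Z ∈ 𝔤, Skew B Z) → (∀ X ∈ 𝔤, ∀ Y ∈ 𝔤, X * Y - Y * X ∈ 𝔤) →
  (∀ Z ∈ 𝔤, g * Z * g⁻¹ ∈ 𝔤) →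
  (∀ 𝒜 : Subalgebra F (Matrix (Fin N) (Fin N) F), (∀ Z ∈ 𝔤, Z ∈ 𝒜) → 𝒜 = ⊤) →
  ∀ X, Skew B X → X ∈ 𝔤

/-- different roots have different powers -/
def DistPow (ℓ : ℕ) [Fact ℓ.Prime] (Q : ℚ_[ℓ][X]) : Prop :=
  ∀ (j : ℕ) (x y : AlgebraicClosure ℚ_[ℓ]), 0 < j → aeval x Q = 0 → aeval y Q = 0 →
    x ^ j = y ^ j → x = y

/-- task ABS -/
def S_ABS : Prop := ∀ (ℓ : ℕ) [Fact ℓ.Prime] (N : ℕ) (G : Type) [Group G]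
  [TopologicalSpace G] [IsTopologicalGroup G] [CompactSpace G]
  (ρ : G →* Matrix (Fin N) (Fin N) ℚ_[ℓ]), Continuous ρ → StronglyIrreducible ℓ ρ →
  ∀ σ : G, (ρ σ).charpoly.Separable → DistPow ℓ (ρ σ).charpoly →
    (∃ a : ℚ_[ℓ], (ρ σ).charpoly.eval a = 0) →
  ∀ 𝒜 : Subalgebra ℚ_[ℓ] (Matrix (Fin N) (Fin N) ℚ_[ℓ]), (∀ X, IsTangent ℓ ρ X → X ∈ 𝒜) → 𝒜 = ⊤

/-- task BADD -/
def S_BADD : Prop := ∀ (ℓ : ℕ) [Fact ℓ.Prime] (N : ℕ) (G : Type) [Group G]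
  [TopologicalSpace G] [IsTopologicalGroup G] [CompactSpace G]
  (ρ : G →* Matrix (Fin N) (Fin N) ℚ_[ℓ]), Continuous ρ →
  ∀ (U : Subgroup G) (W : Submodule ℚ_[ℓ] (Fin N → ℚ_[ℓ])), IsOpen (U : Set G) →
    (∀ σ ∈ U, ∀ w ∈ W, ρ σ *ᵥ w ∈ W) →
  ∀ σ : G, (ρ σ).charpoly.Separable → DistPow ℓ (ρ σ).charpoly →
    ∃ R : ℚ_[ℓ][X], R.Monic ∧ R.natDegree = Module.finrank ℚ_[ℓ] W ∧ R ∣ (ρ σ).charpoly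

/-- task SUB -/
def S_SUB : Prop := ∀ Q : ℚ[X], Q.Monic → Q.Separable →
  ∃ b : ℕ, ∀ ℓ : ℕ, b < ℓ → ∀ _ : Fact ℓ.Prime, ∀ σ : GK ℚ, FrobAt ℓ σ →
    (∀ R : ℚ_[ℓ][X], R.Monic → R ∣ Q.map (algebraMap ℚ ℚ_[ℓ]) →
      ∃ T : Set QQ, (∀ x ∈ T, aeval x Q = 0) ∧ T.ncard = R.natDegree ∧ ∀ x ∈ T, σ x ∈ T) ∧
    ((∃ x : QQ, aeval x Q = 0 ∧ σ x = x) →
      ∃ a : ℚ_[ℓ], (Q.map (algebraMap ℚ ℚ_[ℓ])).eval a = 0)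

/-! ### local fields -/

/-- the maximal unramified extension of `ℚ_ℓ` -/
noncomputable def NR (ℓ : ℕ) [Fact ℓ.Prime] :
    IntermediateField ℚ_[ℓ] (AlgebraicClosure ℚ_[ℓ]) :=
  IntermediateField.adjoin ℚ_[ℓ] {ζ | ∃ n : ℕ, 0 < n ∧ ¬ ℓ ∣ n ∧ ζ ^ n = 1}

/-- task NR -/
def S_NR : Prop := ∀ (ℓ : ℕ) [Fact ℓ.Prime], Unr ℓ (NR ℓ) ∧
  (∀ f : ℤ[X], f.Monic → (f.map (Int.castRingHom (ZMod ℓ))).Separable →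
    ∀ x : AlgebraicClosure ℚ_[ℓ], aeval x f = 0 → x ∈ NR ℓ) ∧
  ∀ (e : ℕ) (u : ℚ_[ℓ]) (y : AlgebraicClosure ℚ_[ℓ]), 0 < e → ¬ ℓ ∣ e → ‖u‖ = 1 →
    y ^ e = algebraMap ℚ_[ℓ] (AlgebraicClosure ℚ_[ℓ]) u → y ∈ NR ℓ

/-- `τ` acts transitively on the roots of `X ^ e - c`, for `e ∣ L` and all uniformizers `c` -/
def Tame (ℓ : ℕ) [Fact ℓ.Prime] (L : ℕ)
    (τ : AlgebraicClosure ℚ_[ℓ] ≃ₐ[NR ℓ] AlgebraicClosure ℚ_[ℓ]) : Prop :=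
  ∀ (e : ℕ) (c : ℚ_[ℓ]) (r s : AlgebraicClosure ℚ_[ℓ]), e ∣ L → ‖c‖ = (ℓ : ℝ)⁻¹ →
    r ^ e = algebraMap ℚ_[ℓ] (AlgebraicClosure ℚ_[ℓ]) c →
    s ^ e = algebraMap ℚ_[ℓ] (AlgebraicClosure ℚ_[ℓ]) c → ∃ k : ℕ, (τ ^ k) r = s

/-- task TAME -/
def S_TAME : Prop := ∀ (ℓ : ℕ) [Fact ℓ.Prime] (L : ℕ), 0 < L → ¬ ℓ ∣ L →
  ∃ τ : AlgebraicClosure ℚ_[ℓ] ≃ₐ[NR ℓ] AlgebraicClosure ℚ_[ℓ], Tame ℓ L τ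

/-- the differences of different roots of `R` are different, except for `a - b = (-b) - (-a)` -/
def GenSum (ℓ : ℕ) [Fact ℓ.Prime] (R : ℚ_[ℓ][X]) : Prop :=
  ∀ a b c d : AlgebraicClosure ℚ_[ℓ], aeval a R = 0 → aeval b R = 0 → aeval c R = 0 →
    aeval d R = 0 → a ≠ b → a + d = c + b → (c = a ∧ d = b) ∨ (c + b = 0 ∧ d + a = 0)

/-- there is an equivariant bijection `φ` from the roots of `R₀` to the roots of `Q` -/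
def RootBij (ℓ : ℕ) [Fact ℓ.Prime] (R₀ Q : ℚ_[ℓ][X]) : Prop :=
  Q.Separable ∧ DistPow ℓ Q ∧ (GenSum ℓ R₀ → Generic Q 1) ∧
  ∃ φ : AlgebraicClosure ℚ_[ℓ] → AlgebraicClosure ℚ_[ℓ],
    (∀ r, aeval r R₀ = 0 → aeval (φ r) Q = 0) ∧
    (∀ r s, aeval r R₀ = 0 → aeval s R₀ = 0 → φ r = φ s → r = s) ∧
    (∀ x, aeval x Q = 0 → ∃ r, aeval r R₀ = 0 ∧ φ r = x) ∧
    (∀ r, aeval r R₀ = 0 → φ (-r) = (φ r)⁻¹) ∧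
    ∀ (τ : AlgebraicClosure ℚ_[ℓ] ≃ₐ[ℚ_[ℓ]] AlgebraicClosure ℚ_[ℓ]) (r : AlgebraicClosure ℚ_[ℓ]),
      aeval r R₀ = 0 → φ (τ r) = τ (φ r)

/-- task KRQ (Krasner) -/
def S_KRQ : Prop := ∀ (ℓ : ℕ) [Fact ℓ.Prime], ℓ ≠ 2 → ∀ R₀ : ℚ_[ℓ][X], R₀.Monic →
  R₀.Separable → R₀.comp (-X) = R₀ → ∃ (ε : ℝ) (k₀ : ℕ), 0 < ε ∧ ∀ (k : ℕ) (Q : ℚ_[ℓ][X]),
    k₀ ≤ k → Q.Monic → Q.natDegree = R₀.natDegree →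
    (∀ x : AlgebraicClosure ℚ_[ℓ], aeval x Q = 0 → x ≠ 0 ∧ aeval x⁻¹ Q = 0) →
    (∀ j, ‖(resc ℓ k Q - R₀).coeff j‖ < ε) → RootBij ℓ R₀ Q

/-! ### quadratic forms -/

/-- task WE: decomposition of quadratic forms of even dimension -/
def S_WE : Prop := ∀ (ℓ : ℕ) [Fact ℓ.Prime], ℓ ≠ 2 → ∀ (m N : ℕ), N = 2 * m + 4 →
  ∀ B : Matrix (Fin N) (Fin N) ℚ_[ℓ], Bᵀ = B → B.det ≠ 0 → Even (Padic.valuation B.det) →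
  (∃ (C : Matrix (Fin N) ((Fin m ⊕ Fin m) ⊕ Fin 4) ℚ_[ℓ])
    (D : Matrix ((Fin m ⊕ Fin m) ⊕ Fin 4) (Fin N) ℚ_[ℓ]) (d : Fin 4 → ℚ_[ℓ]),
    C * D = 1 ∧ D * C = 1 ∧ (∀ i, d i ≠ 0) ∧ Odd (Padic.valuation (d 0 * d 1)) ∧
    Odd (Padic.valuation (d 2 * d 3)) ∧
    Cᵀ * B * C = fromBlocks (fromBlocks 0 1 1 0) 0 0 (diagonal d)) ∧
  ∃ (C : Matrix (Fin N) ((Fin m ⊕ Fin m) ⊕ Fin 4) ℚ_[ℓ])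
    (D : Matrix ((Fin m ⊕ Fin m) ⊕ Fin 4) (Fin N) ℚ_[ℓ]) (d : Fin 4 → ℚ_[ℓ]),
    C * D = 1 ∧ D * C = 1 ∧ (∀ i, d i ≠ 0) ∧ Even (Padic.valuation (d 0 * d 1)) ∧
    Even (Padic.valuation (d 2 * d 3)) ∧
    Cᵀ * B * C = fromBlocks (fromBlocks 0 1 1 0) 0 0 (diagonal d)

/-- task FDA: two ramified blocks -/
def S_FDA : Prop := ∀ (ℓ : ℕ) [Fact ℓ.Prime], ℓ ≠ 2 → ∀ (a b N : ℕ), 0 < a → 0 < b →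
  N = 2 * a + 2 * b → ∀ B : Matrix (Fin N) (Fin N) ℚ_[ℓ], Bᵀ = B → B.det ≠ 0 →
  Even (Padic.valuation B.det) → ∃ (T : Matrix (Fin N) (Fin N) ℚ_[ℓ]) (c₁ c₂ : ℚ_[ℓ]),
    Skew B T ∧ ‖c₁‖ = (ℓ : ℝ)⁻¹ ∧ ‖c₂‖ = (ℓ : ℝ)⁻¹ ∧
    T.charpoly = (X ^ (2 * a) - C c₁) * (X ^ (2 * b) - C c₂) ∧ T.charpoly.Separable

/-- the polynomial `(X² - c₁) (X² - c₂) det (X - A) det (X + A)` -/
noncomputable def RA {ℓ : ℕ} [Fact ℓ.Prime] {m : ℕ} (c₁ c₂ : ℚ_[ℓ])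
    (A : Matrix (Fin m) (Fin m) ℚ_[ℓ]) : ℚ_[ℓ][X] :=
  (X ^ 2 - C c₁) * (X ^ 2 - C c₂) * A.charpoly * (-A).charpoly

/-- task FDB -/
def S_FDB : Prop := ∀ (ℓ : ℕ) [Fact ℓ.Prime], ℓ ≠ 2 → ∀ (m N : ℕ), N = 2 * m + 4 →
  ∀ B : Matrix (Fin N) (Fin N) ℚ_[ℓ], Bᵀ = B → B.det ≠ 0 → Even (Padic.valuation B.det) →
  (∃ u₁ u₂ : ℚ_[ℓ], ‖u₁‖ = (ℓ : ℝ)⁻¹ ∧ ‖u₂‖ = (ℓ : ℝ)⁻¹ ∧
    ∀ (s₁ s₂ : ℚ_[ℓ]) (A : Matrix (Fin m) (Fin m) ℚ_[ℓ]), s₁ ≠ 0 → s₂ ≠ 0 →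
      ∃ T : Matrix (Fin N) (Fin N) ℚ_[ℓ], Skew B T ∧
        T.charpoly = RA (u₁ * s₁ ^ 2) (u₂ * s₂ ^ 2) A) ∧
  ∃ u₁ u₂ : ℚ_[ℓ], ‖u₁‖ = 1 ∧ ‖u₂‖ = 1 ∧
    ∀ (s₁ s₂ : ℚ_[ℓ]) (A : Matrix (Fin m) (Fin m) ℚ_[ℓ]), s₁ ≠ 0 → s₂ ≠ 0 →
      ∃ T : Matrix (Fin N) (Fin N) ℚ_[ℓ], Skew B T ∧
        T.charpoly = RA (u₁ * s₁ ^ 2) (u₂ * s₂ ^ 2) A

/-- task TYPD2: the tame element acts as a transposition of two roots (and their negatives) -/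
def S_TYPD2 : Prop := ∀ (ℓ : ℕ) [Fact ℓ.Prime] (m : ℕ), 2 ≤ m → 2 * m + 4 < ℓ →
  ∀ u₁ u₂ : ℚ_[ℓ], ‖u₁‖ = 1 → ‖u₂‖ = 1 →
  ∃ (s₁ s₂ : ℚ_[ℓ]) (A : Matrix (Fin m) (Fin m) ℚ_[ℓ]), s₁ ≠ 0 ∧ s₂ ≠ 0 ∧
    (RA (u₁ * s₁ ^ 2) (u₂ * s₂ ^ 2) A).Separable ∧
    ∀ (L : ℕ) (τ : AlgebraicClosure ℚ_[ℓ] ≃ₐ[NR ℓ] AlgebraicClosure ℚ_[ℓ]), 2 ∣ L → Tame ℓ L τ →
      ∃ x y : AlgebraicClosure ℚ_[ℓ], aeval x (RA (u₁ * s₁ ^ 2) (u₂ * s₂ ^ 2) A) = 0 ∧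
        aeval y (RA (u₁ * s₁ ^ 2) (u₂ * s₂ ^ 2) A) = 0 ∧ y ≠ x ∧ y ≠ -x ∧ τ x = y ∧ τ y = x ∧
        ∀ z, aeval z (RA (u₁ * s₁ ^ 2) (u₂ * s₂ ^ 2) A) = 0 → z ≠ x → z ≠ -x → z ≠ y → z ≠ -y →
          τ z = z

/-- task TYPD3: the tame element acts as a double sign change, and the roots are generic -/
def S_TYPD3 : Prop := ∀ (ℓ : ℕ) [Fact ℓ.Prime], ℓ ≠ 2 → ∀ m : ℕ, 0 < m →
  ∀ u₁ u₂ : ℚ_[ℓ], ‖u₁‖ = (ℓ : ℝ)⁻¹ → ‖u₂‖ = (ℓ : ℝ)⁻¹ →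
  ∃ (s₁ s₂ : ℚ_[ℓ]) (A : Matrix (Fin m) (Fin m) ℚ_[ℓ]), s₁ ≠ 0 ∧ s₂ ≠ 0 ∧
    (RA (u₁ * s₁ ^ 2) (u₂ * s₂ ^ 2) A).Separable ∧
    GenSum ℓ (RA (u₁ * s₁ ^ 2) (u₂ * s₂ ^ 2) A) ∧
    (∃ a : ℚ_[ℓ], (RA (u₁ * s₁ ^ 2) (u₂ * s₂ ^ 2) A).eval a = 0) ∧
    ∀ (L : ℕ) (τ : AlgebraicClosure ℚ_[ℓ] ≃ₐ[NR ℓ] AlgebraicClosure ℚ_[ℓ]), 2 ∣ L → Tame ℓ L τ →
      ∃ x y : AlgebraicClosure ℚ_[ℓ], aeval x (RA (u₁ * s₁ ^ 2) (u₂ * s₂ ^ 2) A) = 0 ∧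
        aeval y (RA (u₁ * s₁ ^ 2) (u₂ * s₂ ^ 2) A) = 0 ∧ y ≠ x ∧ y ≠ -x ∧ τ x = -x ∧ τ y = -y ∧
        ∀ z, aeval z (RA (u₁ * s₁ ^ 2) (u₂ * s₂ ^ 2) A) = 0 → z ≠ x → z ≠ -x → z ≠ y → z ≠ -y →
          τ z = z

/-- task CHARE: the characteristic polynomial of an isometry near `1` -/
def S_CHARE : Prop := ∀ (ℓ : ℕ) [Fact ℓ.Prime] (N : ℕ), 0 < N →
  ∀ (B T : Matrix (Fin N) (Fin N) ℚ_[ℓ]), B.det ≠ 0 →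
  ∀ ε : ℝ, 0 < ε → ∃ (δ : ℝ) (k₀ : ℕ), 0 < δ ∧
  ∀ (k : ℕ) (g : Matrix (Fin N) (Fin N) ℚ_[ℓ]), k₀ ≤ k → Isom B g →
    (∀ a b, ‖((((ℓ : ℚ_[ℓ]) ^ k)⁻¹ • (g - 1)) - T) a b‖ < δ) →
    (∀ j, ‖(resc ℓ k g.charpoly - T.charpoly).coeff j‖ < ε) ∧
      ∀ x : AlgebraicClosure ℚ_[ℓ], aeval x g.charpoly = 0 → x ≠ 0 ∧ aeval x⁻¹ g.charpoly = 0

/-- task DISCE: the discriminant of the form -/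
def S_DISCE : Prop := ∀ (F : Type) [Field F] [CharZero F] (N : ℕ), Even N →
  ∀ B g : Matrix (Fin N) (Fin N) F, Bᵀ = B → Isom B g → g.charpoly.eval 1 ≠ 0 →
  g.charpoly.eval (-1) ≠ 0 → IsSquare (g.charpoly.eval 1 * g.charpoly.eval (-1) * B.det)

/-! ### permutations -/

/-- task GEND: a group of permutations commuting with a fixed point free involution -/
def S_GEND : Prop := ∀ (R : Type) [Fintype R] [DecidableEq R] (ι : Equiv.Perm R)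
  (H : Subgroup (Equiv.Perm R)), (∀ x, ι x ≠ x) → (∀ x, ι (ι x) = x) →
  (∀ h ∈ H, ∀ x, h (ι x) = ι (h x)) →
  -- one stable pair, transitive outside of it
  (∃ h ∈ H, ∃ z, h z = ι z ∧ ∀ x y, x ≠ z → x ≠ ι z → y ≠ z → y ≠ ι z →
    ∃ k : ℕ, (h ^ k) x = y) →
  -- no stable pair
  (∃ h ∈ H, ∀ x, h x ≠ x ∧ h x ≠ ι x) →
  -- a transposition
  (∃ h ∈ H, ∃ x y, y ≠ x ∧ y ≠ ι x ∧ h x = y ∧ h y = x ∧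
    ∀ z, z ≠ x → z ≠ ι x → z ≠ y → z ≠ ι y → h z = z) →
  -- a double sign change
  (∃ h ∈ H, ∃ x y, y ≠ x ∧ y ≠ ι x ∧ h x = ι x ∧ h y = ι y ∧
    ∀ z, z ≠ x → z ≠ ι x → z ≠ y → z ≠ ι y → h z = z) →
  ∀ w : Equiv.Perm R, (∀ x, w (ι x) = ι (w x)) → Equiv.Perm.sign w = 1 → w ∈ H

/-- task CLD: signed permutations without stable subsets of size `d` -/
def S_CLD : Prop := ∀ (R : Type) [Fintype R] [DecidableEq R] (ι : Equiv.Perm R),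
  (∀ x, ι x ≠ x) → (∀ x, ι (ι x) = x) → 6 ≤ Fintype.card R → ∀ e : ℤˣ,
  (∀ d : ℕ, 0 < d → d < Fintype.card R →
    ∃ w : Equiv.Perm R, (∀ x, w (ι x) = ι (w x)) ∧ Equiv.Perm.sign w = e ∧
      ∀ T : Finset R, (∀ x ∈ T, w x ∈ T) → T.card ≠ d) ∧
  ∃ w : Equiv.Perm R, (∀ x, w (ι x) = ι (w x)) ∧ Equiv.Perm.sign w = e ∧ ∃ x, w x = x

end Pool.Agent.Y142.ZD
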