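import Pool.Agent.Y142.ZD.Types

/-!
# Project ZD: large Galois groups from local types
-/

set_option autoImplicit false
set_option linter.style.haveILetI false
set_option linter.unusedSectionVars false

open Matrix Polynomial Filter Topology NumberField IsDedekindDomain
open Pool.Agent.Y142.ZO Pool.Agent.Y142.ZI
open Pool.Agent.Y142.ZS (Generic NiceP restrict0)

namespace Pool.Agent.Y142.ZD

theorem stable_pow {T : Set QQ} {g : GK ℚ} (h : ∀ x ∈ T, g x ∈ T) (k : ℕ) :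
    ∀ x ∈ T, (g ^ k) x ∈ T := by
  induction k with
  | zero => intro x hx; exact hx
  | succ k ih =>
    intro x hx
    rw [pow_succ, AlgEquiv.mul_apply]
    exact ih _ (h x hx)

theorem cl_of_act {Q : ℚ[X]} {a b : ℕ} {σ : GK ℚ} {A₁ A₂ : Set QQ}
    (h1 : ∀ x, aeval x Q = 0 ↔ x ∈ A₁ ∨ x ∈ A₂) (h2 : ∀ x ∈ A₁, x ∉ A₂) (h3 : A₁.ncard = a)
    (h4 : A₂.ncard = b) (h5 : ∀ x ∈ A₁, ∀ y ∈ A₁, ∃ k : ℕ, (σ ^ k) x = y)
    (h6 : ∀ x ∈ A₂, ∀ y ∈ A₂, ∃ k : ℕ, (σ ^ k) x = y) (ha : 0 < a) (hb : 0 < b) {d : ℕ}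
    (hd0 : d ≠ 0) (hda : d ≠ a) (hdb : d ≠ b) (hdab : d ≠ a + b) : σ ∈ Cl Q d := by
  have hf1 : A₁.Finite := Set.finite_of_ncard_pos (by omega)
  have hf2 : A₂.Finite := Set.finite_of_ncard_pos (by omega)
  intro T hT hTs hd
  have hsub : ∀ A : Set QQ, (∀ x ∈ A, ∀ y ∈ A, ∃ k : ℕ, (σ ^ k) x = y) →
      (∃ x ∈ A, x ∈ T) → A ⊆ T := by
    rintro A hA ⟨x, hx, hxT⟩ y hy
    obtain ⟨k, hk⟩ := hA x hx y hy
    rw [← hk]
    exact stable_pow hTs k x hxT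
  have hdisj : Disjoint A₁ A₂ := Set.disjoint_left.2 h2
  by_cases c1 : ∃ x ∈ A₁, x ∈ T
  · have s1 := hsub A₁ h5 c1
    by_cases c2 : ∃ x ∈ A₂, x ∈ T
    · have s2 := hsub A₂ h6 c2
      have : T = A₁ ∪ A₂ := by
        apply Set.Subset.antisymm
        · intro x hx
          exact (h1 x).1 (hT x hx)
        · exact Set.union_subset s1 s2
      rw [this, Set.ncard_union_eq hdisj hf1 hf2, h3, h4] at hd
      exact hdab hd.symm
    · have : T = A₁ := by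
        apply Set.Subset.antisymm
        · intro x hx
          rcases (h1 x).1 (hT x hx) with h | h
          · exact h
          · exact absurd ⟨x, h, hx⟩ c2
        · exact s1
      rw [this, h3] at hd
      exact hda hd.symm
  · by_cases c2 : ∃ x ∈ A₂, x ∈ T
    · have s2 := hsub A₂ h6 c2
      have : T = A₂ := by
        apply Set.Subset.antisymm
        · intro x hx
          rcases (h1 x).1 (hT x hx) with h | h
          · exact absurd ⟨x, h, hx⟩ c1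
          · exact h
        · exact s2
      rw [this, h4] at hd
      exact hdb hd.symm
    · have : T = ∅ := by
        rw [Set.eq_empty_iff_forall_notMem]
        intro x hx
        rcases (h1 x).1 (hT x hx) with h | h
        · exact c1 ⟨x, h, hx⟩
        · exact c2 ⟨x, h, hx⟩
      rw [this, Set.ncard_empty] at hd
      exact hd0 hd.symm

/-- the equivariant parametrisation of the roots in the closure of `ℚ` -/
theorem transferQ {ℓ : ℕ} [hℓ : Fact ℓ.Prime] {Q : ℚ[X]} (hQ : Q.Monic) {R₀ : ℚ_[ℓ][X]}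
    (hC : RootBij ℓ R₀ (Q.map (algebraMap ℚ ℚ_[ℓ]))) (ι : QQ →+* AlgebraicClosure ℚ_[ℓ])
    (τ : AlgebraicClosure ℚ_[ℓ] ≃ₐ[NR ℓ] AlgebraicClosure ℚ_[ℓ]) (σ : GK ℚ)
    (hσ : ∀ x : QQ, τ (ι x) = ι (σ x)) (heven : R₀.comp (-X) = R₀) :
    ∃ ψ : AlgebraicClosure ℚ_[ℓ] → QQ,
      (∀ r : AlgebraicClosure ℚ_[ℓ], aeval r R₀ = 0 → aeval (ψ r) Q = 0) ∧
      (∀ r s : AlgebraicClosure ℚ_[ℓ], aeval r R₀ = 0 → aeval s R₀ = 0 → ψ r = ψ s → r = s) ∧
      (∀ x : QQ, aeval x Q = 0 → ∃ r : AlgebraicClosure ℚ_[ℓ], aeval r R₀ = 0 ∧ ψ r = x) ∧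
      (∀ r : AlgebraicClosure ℚ_[ℓ], aeval r R₀ = 0 → aeval (-r) R₀ = 0) ∧
      (∀ r : AlgebraicClosure ℚ_[ℓ], aeval r R₀ = 0 → ψ (-r) = (ψ r)⁻¹) ∧
      ∀ r : AlgebraicClosure ℚ_[ℓ], aeval r R₀ = 0 → ψ (τ r) = σ (ψ r) := by
  obtain ⟨-, -, -, φ, h1, h2, h3, h4, h5⟩ := hC
  have hlift : ∀ r : AlgebraicClosure ℚ_[ℓ], aeval r R₀ = 0 → ∃ x : QQ, aeval x Q = 0 ∧ ι x = φ r :=
    fun r hr => lift_root ℓ ι hQ.ne_zero (h1 r hr)
  choose! ψ hψ1 hψ2 using hlift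
  have hneg : ∀ r : AlgebraicClosure ℚ_[ℓ], aeval r R₀ = 0 → aeval (-r) R₀ = 0 := by
    intro r hr
    rw [← heven, aeval_comp] at hr
    rwa [map_neg, aeval_X] at hr
  have hτroot : ∀ r : AlgebraicClosure ℚ_[ℓ], aeval r R₀ = 0 → aeval (τ r) R₀ = 0 := by
    intro r hr
    have := aeval_algHom_apply (τ.restrictScalars ℚ_[ℓ]).toAlgHom r R₀
    rw [hr, map_zero] at this
    exact this
  refine ⟨ψ, hψ1, ?_, ?_, hneg, ?_, ?_⟩
  · intro r s hr hs hrs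
    apply h2 r s hr hs
    rw [← hψ2 r hr, ← hψ2 s hs, hrs]
  · intro x hx
    obtain ⟨r, hr, hrx⟩ := h3 (ι x) (push_root ℓ ι hx)
    refine ⟨r, hr, ?_⟩
    apply ι.injective
    rw [hψ2 r hr, hrx]
  · intro r hr
    apply ι.injective
    rw [hψ2 _ (hneg r hr), h4 r hr, map_inv₀, hψ2 r hr]
  · intro r hr
    apply ι.injective
    have h6 : φ (τ r) = τ (φ r) := h5 (τ.restrictScalars ℚ_[ℓ]) r hr
    rw [hψ2 _ (hτroot r hr), h6, ← hσ, hψ2 r hr]

theorem surjE (hGEND : S_GEND) (hNR : S_NR) (hTAME : S_TAME) {n : ℕ} (hn : 4 ≤ n) {Q : ℚ[X]}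
    (hmon : Q.Monic) (hinv : ∀ x : QQ, aeval x Q = 0 → x ≠ 0 ∧ aeval x⁻¹ Q = 0)
    (hsq : ∀ x : QQ, aeval x Q = 0 → x * x ≠ 1) [Fintype (Rt Q)] [DecidableEq (Rt Q)]
    (M : IntermediateField ℚ QQ) (f : ℤ[X]) (hf : f.Monic)
    (hMf : M ≤ IntermediateField.adjoin ℚ {x : QQ | aeval x f = 0})
    (p₀ p₁ p₂ p₃ : ℕ) [Fact p₀.Prime] [Fact p₁.Prime] [Fact p₂.Prime] [Fact p₃.Prime]
    (hf₀ : (f.map (Int.castRingHom (ZMod p₀))).Separable)
    (hf₁ : (f.map (Int.castRingHom (ZMod p₁))).Separable)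
    (hf₂ : (f.map (Int.castRingHom (ZMod p₂))).Separable)
    (hf₃ : (f.map (Int.castRingHom (ZMod p₃))).Separable)
    (hL₀ : ¬ p₀ ∣ 4 * ((n - 1) * (n - 2))) (hL₁ : ¬ p₁ ∣ 4 * ((n - 1) * (n - 2)))
    (hL₂ : ¬ p₂ ∣ 4 * ((n - 1) * (n - 2))) (hL₃ : ¬ p₃ ∣ 4 * ((n - 1) * (n - 2)))
    (h₀ : ConA p₀ (n - 1) 1 (Q.map (algebraMap ℚ ℚ_[p₀])))
    (h₁ : ConA p₁ (n - 2) 2 (Q.map (algebraMap ℚ ℚ_[p₁])))
    (h₂ : Con2 p₂ (Q.map (algebraMap ℚ ℚ_[p₂])))
    (h₃ : Con3 p₃ (Q.map (algebraMap ℚ ℚ_[p₃]))) :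
    ∀ w : Equiv.Perm (Rt Q), (∀ x, w (invR Q hinv x) = invR Q hinv (w x)) →
      Equiv.Perm.sign w = 1 → ∃ h : GK ℚ, (∀ x ∈ M, h x = x) ∧ act Q h = w := by
  have hLpos : 0 < 4 * ((n - 1) * (n - 2)) := by
    have h1 : 0 < n - 1 := by omega
    have h2 : 0 < n - 2 := by omega
    positivity
  have hd1 : 2 * (n - 1) ∣ 4 * ((n - 1) * (n - 2)) := ⟨2 * (n - 2), by ring⟩
  have hd2 : 2 * 1 ∣ 4 * ((n - 1) * (n - 2)) := ⟨2 * ((n - 1) * (n - 2)), by ring⟩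
  have hd3 : 2 * (n - 2) ∣ 4 * ((n - 1) * (n - 2)) := ⟨2 * (n - 1), by ring⟩
  have hd4 : 2 * 2 ∣ 4 * ((n - 1) * (n - 2)) := ⟨(n - 1) * (n - 2), by ring⟩
  set ι := invR Q hinv with hι
  set H : Subgroup (Equiv.Perm (Rt Q)) := (fixSub M).map (act Q) with hH
  have hmemH : ∀ σ : GK ℚ, (∀ x ∈ M, σ x = x) → act Q σ ∈ H := fun σ hσ =>
    ⟨σ, mem_fixSub.2 hσ, rfl⟩
  have hcomm : ∀ (σ : GK ℚ) (x : Rt Q), act Q σ (ι x) = ι (act Q σ x) := by
    intro σ x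
    apply Subtype.ext
    rw [act_apply, hι, invR_apply, invR_apply, act_apply, map_inv₀]
  have hne : ∀ x : QQ, aeval x Q = 0 → x⁻¹ ≠ x := by
    intro x hx h
    apply hsq x hx
    nth_rewrite 1 [← h]
    exact inv_mul_cancel₀ (hinv x hx).1
  have hιne : ∀ x, ι x ≠ x := fun x hx => hne x.1 x.2 (congrArg Subtype.val hx)
  have hιι : ∀ x, ι (ι x) = x := fun x => Subtype.ext (inv_inv x.1)
  have hact_pow : ∀ (σ : GK ℚ) (k : ℕ) (x : Rt Q), (((act Q σ) ^ k) x : QQ) = (σ ^ k) x.1 := by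
    intro σ k x
    rw [← map_pow, act_apply]
  have g1 : ∃ h ∈ H, ∃ z, h z = ι z ∧ ∀ x y, x ≠ z → x ≠ ι z → y ≠ z → y ≠ ι z →
      ∃ k : ℕ, (h ^ k) x = y := by
    obtain ⟨τ, hτ⟩ := hTAME p₀ _ hLpos hL₀
    obtain ⟨j⟩ := emb p₀
    obtain ⟨σ, hσM, hσ⟩ := resNR hNR p₀ j f hf hf₀ M hMf τ
    obtain ⟨A₁, A₂, a1, a2, a3, a4, a5, a6, a7, a8, a9, a10⟩ := act_a (by omega) one_pos hmon h₀ hinv
      j τ hτ hd1 hd2 σ hσ
    obtain ⟨z, hz⟩ : A₂.Nonempty := by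
      rw [← Set.ncard_pos (Set.finite_of_ncard_pos (by omega))]
      omega
    have hzr : aeval z Q = 0 := (a1 z).2 (Or.inr hz)
    have hA₂ : A₂ = {z, z⁻¹} := by
      symm
      apply Set.eq_of_subset_of_ncard_le
      · rintro x (rfl | hx)
        · exact hz
        · rw [Set.mem_singleton_iff] at hx
          rw [hx]
          exact a6 z hz
      · rw [a4, Set.ncard_pair (hne z hzr).symm]
        omega
      · exact Set.finite_of_ncard_pos (by omega)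
    refine ⟨act Q σ, hmemH σ hσM, ⟨z, hzr⟩, ?_, ?_⟩
    · apply Subtype.ext
      rw [act_apply, hι, invR_apply]
      have h1 := a8 z hz
      rw [hA₂] at h1
      rcases h1 with h1 | h1
      · exfalso
        obtain ⟨k, hk⟩ := a10 z hz z⁻¹ (a6 z hz)
        have h2 : ∀ k : ℕ, (σ ^ k) z = z := by
          intro k
          induction k with
          | zero => rfl
          | succ k ih => rw [pow_succ, AlgEquiv.mul_apply, h1, ih]
        rw [h2 k] at hk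
        exact hne z hzr hk.symm
      · exact h1
    · intro x y hx1 hx2 hy1 hy2
      have hmem : ∀ u : Rt Q, u ≠ ⟨z, hzr⟩ → u ≠ ι ⟨z, hzr⟩ → u.1 ∈ A₁ := by
        intro u hu1 hu2
        rcases (a1 u.1).1 u.2 with h | h
        · exact h
        · exfalso
          rw [hA₂] at h
          rcases h with h | h
          · exact hu1 (Subtype.ext h)
          · exact hu2 (Subtype.ext h)
      obtain ⟨k, hk⟩ := a9 x.1 (hmem x hx1 hx2) y.1 (hmem y hy1 hy2)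
      exact ⟨k, Subtype.ext (by rw [hact_pow, hk])⟩
  have g2 : ∃ h ∈ H, ∀ x, h x ≠ x ∧ h x ≠ ι x := by
    obtain ⟨τ, hτ⟩ := hTAME p₁ _ hLpos hL₁
    obtain ⟨j⟩ := emb p₁
    obtain ⟨σ, hσM, hσ⟩ := resNR hNR p₁ j f hf hf₁ M hMf τ
    obtain ⟨A₁, A₂, a1, a2, a3, a4, a5, a6, a7, a8, a9, a10⟩ := act_a (by omega) two_pos hmon h₁ hinv
      j τ hτ hd3 hd4 σ hσ
    have key : ∀ A : Set QQ, 4 ≤ A.ncard → (∀ x ∈ A, ∀ y ∈ A, ∃ k : ℕ, (σ ^ k) x = y) →
        ∀ x ∈ A, σ x ≠ x ∧ σ x ≠ x⁻¹ := by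
      intro A hA htr x hx
      by_contra hcon
      have hstab : ∀ k : ℕ, (σ ^ k) x = x ∨ (σ ^ k) x = x⁻¹ := by
        rcases not_and_or.1 hcon with h | h
        · rw [not_not] at h
          intro k
          left
          induction k with
          | zero => rfl
          | succ k ih => rw [pow_succ, AlgEquiv.mul_apply, h, ih]
        · rw [not_not] at h
          have h' : σ x⁻¹ = x := by rw [map_inv₀, h, inv_inv]
          intro k
          have : ((σ ^ k) x = x ∨ (σ ^ k) x = x⁻¹) ∧ ((σ ^ k) x⁻¹ = x ∨ (σ ^ k) x⁻¹ = x⁻¹) := by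
            induction k with
            | zero => exact ⟨Or.inl rfl, Or.inr rfl⟩
            | succ k ih =>
              rw [pow_succ, AlgEquiv.mul_apply, AlgEquiv.mul_apply, h, h']
              exact ⟨ih.2, ih.1⟩
          exact this.1
      have hsub : A ⊆ {x, x⁻¹} := by
        intro y hy
        obtain ⟨k, hk⟩ := htr x hx y hy
        rw [← hk]
        rcases hstab k with h | h
        · exact Or.inl h
        · exact Or.inr h
      have h2 := Set.ncard_le_ncard hsub (Set.toFinite _)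
      have h3 : ({x, x⁻¹} : Set QQ).ncard ≤ 2 := by
        have := Set.ncard_insert_le x ({x⁻¹} : Set QQ)
        rwa [Set.ncard_singleton] at this
      omega
    refine ⟨act Q σ, hmemH σ hσM, fun x => ?_⟩
    have h4 : σ x.1 ≠ x.1 ∧ σ x.1 ≠ x.1⁻¹ := by
      rcases (a1 x.1).1 x.2 with h | h
      · exact key A₁ (by omega) a9 x.1 h
      · exact key A₂ (by omega) a10 x.1 h
    exact ⟨fun h => h4.1 (congrArg Subtype.val h), fun h => h4.2 (congrArg Subtype.val h)⟩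
  have g3 : ∃ h ∈ H, ∃ x y, y ≠ x ∧ y ≠ ι x ∧ h x = y ∧ h y = x ∧
      ∀ z, z ≠ x → z ≠ ι x → z ≠ y → z ≠ ι y → h z = z := by
    obtain ⟨τ, hτ⟩ := hTAME p₂ _ hLpos hL₂
    obtain ⟨j⟩ := emb p₂
    obtain ⟨σ, hσM, hσ⟩ := resNR hNR p₂ j f hf hf₂ M hMf τ
    obtain ⟨R₀, heven, hbij, hτR⟩ := h₂
    obtain ⟨ψ, b1, b2, b3, b4, b5, b6⟩ := transferQ hmon hbij j τ σ hσ heven
    obtain ⟨x, y, hx, hy, hyx, hyx', hτx, hτy, hz⟩ := hτR _ τ (Dvd.intro _ rfl |>.trans hd2) hτ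
    refine ⟨act Q σ, hmemH σ hσM, ⟨ψ x, b1 x hx⟩, ⟨ψ y, b1 y hy⟩, ?_, ?_, ?_, ?_, ?_⟩
    · intro h
      exact hyx (b2 y x hy hx (congrArg Subtype.val h))
    · intro h
      have h1 : ψ y = (ψ x)⁻¹ := congrArg Subtype.val h
      rw [← b5 x hx] at h1
      exact hyx' (b2 y (-x) hy (b4 x hx) h1)
    · apply Subtype.ext
      rw [act_apply]
      show σ (ψ x) = ψ y
      rw [← b6 x hx, hτx]
    · apply Subtype.ext
      rw [act_apply]
      show σ (ψ y) = ψ x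
      rw [← b6 y hy, hτy]
    · intro z hz1 hz2 hz3 hz4
      obtain ⟨r, hr, hrz⟩ := b3 z.1 z.2
      have h5 : τ r = r := by
        apply hz r hr
        · rintro rfl
          exact hz1 (Subtype.ext hrz.symm)
        · rintro rfl
          apply hz2
          apply Subtype.ext
          rw [hι, invR_apply, ← hrz, b5 x hx]
        · rintro rfl
          exact hz3 (Subtype.ext hrz.symm)
        · rintro rfl
          apply hz4
          apply Subtype.ext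
          rw [hι, invR_apply, ← hrz, b5 y hy]
      apply Subtype.ext
      rw [act_apply, ← hrz, ← b6 r hr, h5]
  have g4 : ∃ h ∈ H, ∃ x y, y ≠ x ∧ y ≠ ι x ∧ h x = ι x ∧ h y = ι y ∧
      ∀ z, z ≠ x → z ≠ ι x → z ≠ y → z ≠ ι y → h z = z := by
    obtain ⟨τ, hτ⟩ := hTAME p₃ _ hLpos hL₃
    obtain ⟨j⟩ := emb p₃
    obtain ⟨σ, hσM, hσ⟩ := resNR hNR p₃ j f hf hf₃ M hMf τ
    obtain ⟨R₀, heven, hbij, -, -, hτR⟩ := h₃
    obtain ⟨ψ, b1, b2, b3, b4, b5, b6⟩ := transferQ hmon hbij j τ σ hσ heven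
    obtain ⟨x, y, hx, hy, hyx, hyx', hτx, hτy, hz⟩ := hτR _ τ (Dvd.intro _ rfl |>.trans hd2) hτ
    refine ⟨act Q σ, hmemH σ hσM, ⟨ψ x, b1 x hx⟩, ⟨ψ y, b1 y hy⟩, ?_, ?_, ?_, ?_, ?_⟩
    · intro h
      exact hyx (b2 y x hy hx (congrArg Subtype.val h))
    · intro h
      have h1 : ψ y = (ψ x)⁻¹ := congrArg Subtype.val h
      rw [← b5 x hx] at h1
      exact hyx' (b2 y (-x) hy (b4 x hx) h1)
    · apply Subtype.ext
      rw [act_apply, hι, invR_apply]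
      show σ (ψ x) = (ψ x)⁻¹
      rw [← b6 x hx, hτx, b5 x hx]
    · apply Subtype.ext
      rw [act_apply, hι, invR_apply]
      show σ (ψ y) = (ψ y)⁻¹
      rw [← b6 y hy, hτy, b5 y hy]
    · intro z hz1 hz2 hz3 hz4
      obtain ⟨r, hr, hrz⟩ := b3 z.1 z.2
      have h5 : τ r = r := by
        apply hz r hr
        · rintro rfl
          exact hz1 (Subtype.ext hrz.symm)
        · rintro rfl
          apply hz2
          apply Subtype.ext
          rw [hι, invR_apply, ← hrz, b5 x hx]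
        · rintro rfl
          exact hz3 (Subtype.ext hrz.symm)
        · rintro rfl
          apply hz4
          apply Subtype.ext
          rw [hι, invR_apply, ← hrz, b5 y hy]
      apply Subtype.ext
      rw [act_apply, ← hrz, ← b6 r hr, h5]
  have hHcomm : ∀ h ∈ H, ∀ x, h (ι x) = ι (h x) := by
    rintro h ⟨σ, -, rfl⟩ x
    exact hcomm σ x
  intro w hw hs
  obtain ⟨h, hh, hhw⟩ := hGEND (Rt Q) ι H hιne hιι hHcomm g1 g2 g3 g4 w hw hs
  exact ⟨h, mem_fixSub.1 hh, hhw⟩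

end Pool.Agent.Y142.ZD
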