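import Pool.Agent.Y142.ZD.Surj
import Pool.Agent.Y142.ZS.Top

/-!
# Project ZD: density zero
-/

set_option autoImplicit false
set_option linter.style.haveILetI false
set_option linter.unusedSectionVars false

open Matrix Polynomial Filter Topology NumberField IsDedekindDomain
open Pool.Agent.Y142.ZO Pool.Agent.Y142.ZI
open Pool.Agent.Y142.ZS (Generic NiceP restrict0 nice_of_p)

namespace Pool.Agent.Y142.ZD

/-- classes from the surjectivity onto the even signed permutations -/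
theorem coset (hCLD : S_CLD) {Q : ℚ[X]}
    (hinv : ∀ x : QQ, aeval x Q = 0 → x ≠ 0 ∧ aeval x⁻¹ Q = 0)
    (hsq : ∀ x : QQ, aeval x Q = 0 → x * x ≠ 1) [Fintype (Rt Q)] [DecidableEq (Rt Q)]
    (h6 : 6 ≤ Fintype.card (Rt Q)) (M : IntermediateField ℚ QQ)
    (hsurj : ∀ w : Equiv.Perm (Rt Q), (∀ x, w (invR Q hinv x) = invR Q hinv (w x)) →
      Equiv.Perm.sign w = 1 → ∃ h : GK ℚ, (∀ x ∈ M, h x = x) ∧ act Q h = w) :
    (∀ (d : ℕ) (g : GK ℚ), 0 < d → d < Fintype.card (Rt Q) →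
      ∃ h : GK ℚ, (∀ x ∈ M, h x = x) ∧ g * h ∈ Cl Q d) ∧
    ∀ g : GK ℚ, ∃ h : GK ℚ, (∀ x ∈ M, h x = x) ∧ g * h ∈ Fx Q := by
  classical
  set ι := invR Q hinv with hι
  have hcomm : ∀ (σ : GK ℚ) (x : Rt Q), act Q σ (ι x) = ι (act Q σ x) := by
    intro σ x
    apply Subtype.ext
    rw [act_apply, hι, invR_apply, invR_apply, act_apply, map_inv₀]
  have hne : ∀ x : QQ, aeval x Q = 0 → x⁻¹ ≠ x := by
    intro x hx h
    apply hsq x hx
    nth_rewrite 1 [← h]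
    exact inv_mul_cancel₀ (hinv x hx).1
  have hιne : ∀ x, ι x ≠ x := fun x hx => hne x.1 x.2 (congrArg Subtype.val hx)
  have hιι : ∀ x, ι (ι x) = x := fun x => Subtype.ext (inv_inv x.1)
  have hstep : ∀ (g : GK ℚ) (w : Equiv.Perm (Rt Q)), (∀ x, w (ι x) = ι (w x)) →
      Equiv.Perm.sign w = Equiv.Perm.sign (act Q g) →
      ∃ h : GK ℚ, (∀ x ∈ M, h x = x) ∧ act Q (g * h) = w := by
    intro g w hw hs
    obtain ⟨h, hhM, hh⟩ := hsurj ((act Q g)⁻¹ * w) (by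
      intro x
      rw [Equiv.Perm.mul_apply, Equiv.Perm.mul_apply, hw, Equiv.Perm.inv_eq_iff_eq, hcomm]
      congr 1
      exact ((act Q g).apply_symm_apply (w x)).symm) (by
      rw [map_mul, hs, map_inv, inv_mul_cancel])
    exact ⟨h, hhM, by rw [map_mul, hh, mul_inv_cancel_left]⟩
  refine ⟨?_, ?_⟩
  · intro d g hd0 hd
    obtain ⟨w, hw1, hw2, hw3⟩ := (hCLD (Rt Q) ι hιne hιι h6 (Equiv.Perm.sign (act Q g))).1 d hd0 hd
    obtain ⟨h, hhM, hh⟩ := hstep g w hw1 hw2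
    refine ⟨h, hhM, ?_⟩
    intro T hT hTs hd'
    have hTfin : T.Finite := Set.finite_of_ncard_pos (by omega)
    set T' : Finset (Rt Q) := Finset.univ.filter fun x => x.1 ∈ T with hT'
    refine hw3 T' ?_ ?_
    · intro x hx
      rw [hT', Finset.mem_filter] at hx ⊢
      refine ⟨Finset.mem_univ _, ?_⟩
      rw [← hh, act_apply]
      exact hTs _ hx.2
    · rw [← hd', ← Set.ncard_coe_finset]
      have himg : T = Subtype.val '' (T' : Set (Rt Q)) := by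
        ext x
        constructor
        · intro hx
          exact ⟨⟨x, hT x hx⟩, by
            rw [Finset.mem_coe, hT', Finset.mem_filter]
            exact ⟨Finset.mem_univ _, hx⟩, rfl⟩
        · rintro ⟨y, hy, rfl⟩
          rw [Finset.mem_coe, hT', Finset.mem_filter] at hy
          exact hy.2
      rw [himg, Set.ncard_image_of_injective _ Subtype.val_injective]
  · intro g
    obtain ⟨w, hw1, hw2, x, hx⟩ := (hCLD (Rt Q) ι hιne hιι h6 (Equiv.Perm.sign (act Q g))).2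
    obtain ⟨h, hhM, hh⟩ := hstep g w hw1 hw2
    refine ⟨h, hhM, x.1, x.2, ?_⟩
    rw [← hh] at hx
    exact congrArg Subtype.val hx

section
variable {K : Type} [Field K] [NumberField K] {N : ℕ} {S : Set (HeightOneSpectrum (𝓞 K))}
  {P : HeightOneSpectrum (𝓞 K) → ℚ[X]}

/-- a generic place, from `ℚ_p` -/
theorem genO_of_p {v : HeightOneSpectrum (𝓞 K)} (hv : NiceP S P v)
    (hsq : ∀ x : QQ, aeval x (P v) = 0 → x * x ≠ 1)
    (p : ℕ) [Fact p.Prime]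
    (hgen : Generic ((P v).map (algebraMap ℚ ℚ_[p])) 1) : GenO S P v := by
  refine ⟨hv, hsq, ?_⟩
  intro x y z w hx hy hz hw hxy hxw
  obtain ⟨ι⟩ := emb p
  rcases hgen (ι x) (ι y) (ι z) (ι w) (push_root p ι hx) (push_root p ι hy) (push_root p ι hz)
    (push_root p ι hw) (fun h => hxy (ι.injective h)) (by rw [← map_mul, ← map_mul, hxw]) with h | h
  · exact Or.inl ⟨ι.injective h.1, ι.injective h.2⟩
  · right
    rw [map_one, ← map_mul, ← map_mul, ← map_one ι] at h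
    exact ⟨ι.injective h.1, ι.injective h.2⟩

/-- no root is its own inverse -/
theorem sq_of_bij {p : ℕ} [Fact p.Prime] {Q : ℚ[X]} {R₀ : ℚ_[p][X]}
    (hbij : RootBij p R₀ (Q.map (algebraMap ℚ ℚ_[p]))) (heven : R₀.comp (-X) = R₀)
    (h0 : R₀.eval 0 ≠ 0) : ∀ x : QQ, aeval x Q = 0 → x * x ≠ 1 := by
  obtain ⟨-, -, -, φ, h1, h2, h3, h4, h5⟩ := hbij
  intro x hx hxx
  obtain ⟨ι⟩ := emb p
  obtain ⟨r, hr, hrx⟩ := h3 (ι x) (push_root p ι hx)
  have hneg : aeval (-r) R₀ = 0 := by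
    rw [← heven, aeval_comp] at hr
    rwa [map_neg, aeval_X] at hr
  have h6 : (φ r)⁻¹ = φ r := by
    rw [hrx]
    apply inv_eq_of_mul_eq_one_left
    rw [← map_mul, hxx, map_one]
  have h7 : -r = r := h2 (-r) r hneg hr (by rw [h4 r hr, h6])
  have h8 : (2 : AlgebraicClosure ℚ_[p]) * r = 0 := by linear_combination (-1 : AlgebraicClosure ℚ_[p]) * h7
  have h9 : r = 0 := (mul_eq_zero.1 h8).resolve_left two_ne_zero
  rw [h9] at hr
  have h10 : aeval (algebraMap ℚ_[p] (AlgebraicClosure ℚ_[p]) 0) R₀ =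
      algebraMap ℚ_[p] (AlgebraicClosure ℚ_[p]) (R₀.eval 0) :=
    aeval_algebraMap_apply_eq_algebraMap_eval _ _
  rw [map_zero, hr] at h10
  exact h0 ((map_eq_zero_iff _ (FaithfulSMul.algebraMap_injective _ _)).1 h10.symm)

theorem eval_zero_ab {p : ℕ} [hp : Fact p.Prime] {a b : ℕ} (ha : 0 < a) (hb : 0 < b) {c₁ c₂ : ℚ_[p]}
    (h₁ : ‖c₁‖ = (p : ℝ)⁻¹) (h₂ : ‖c₂‖ = (p : ℝ)⁻¹) :
    ((X ^ (2 * a) - C c₁) * (X ^ (2 * b) - C c₂) : ℚ_[p][X]).eval 0 ≠ 0 := by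
  have hpos : (0 : ℝ) < (p : ℝ)⁻¹ := by
    have : (0 : ℝ) < (p : ℝ) := by exact_mod_cast hp.out.pos
    positivity
  have e1 : c₁ ≠ 0 := by
    rintro rfl
    rw [norm_zero] at h₁
    exact hpos.ne h₁
  have e2 : c₂ ≠ 0 := by
    rintro rfl
    rw [norm_zero] at h₂
    exact hpos.ne h₂
  rw [eval_mul, eval_sub, eval_sub, eval_pow, eval_pow, eval_X, eval_C, eval_C,
    zero_pow (by omega), zero_pow (by omega), zero_sub, zero_sub, neg_mul_neg]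
  exact mul_ne_zero e1 e2

/-- the inverse of a root is a root -/
theorem inv_of_p {p : ℕ} [Fact p.Prime] {Q : ℚ[X]}
    (h : ∀ x : AlgebraicClosure ℚ_[p], aeval x (Q.map (algebraMap ℚ ℚ_[p])) = 0 →
      x ≠ 0 ∧ aeval x⁻¹ (Q.map (algebraMap ℚ ℚ_[p])) = 0) :
    ∀ x : QQ, aeval x Q = 0 → x ≠ 0 ∧ aeval x⁻¹ Q = 0 := by
  intro x hx
  obtain ⟨j⟩ := emb p
  obtain ⟨h1, h2⟩ := h (j x) (push_root p j hx)
  refine ⟨fun h => h1 (by rw [h, map_zero]), pull_root p j ?_⟩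
  rw [map_inv₀]
  exact h2

/-- the start data, from one prime -/
theorem startE {n : ℕ} (hn : 4 ≤ n) (hN : N = 2 * n) (hMULTI : S_MULTI) (hFROB : S_FROB)
    (hCHARE : S_CHARE) (hKRQ : S_KRQ) (hFDA : S_FDA) (hFDB : S_FDB) (hTYPD3 : S_TYPD3)
    (hTAME : S_TAME) (hS : S.Finite)
    (ρ : ∀ (ℓ : ℕ) [Fact ℓ.Prime], GK K →* Matrix (Fin N) (Fin N) ℚ_[ℓ])
    (B : ∀ (ℓ : ℕ) [Fact ℓ.Prime], Matrix (Fin N) (Fin N) ℚ_[ℓ])
    (hsys : ∀ (ℓ : ℕ) [Fact ℓ.Prime], Orthogonal K N ℓ (ρ ℓ) (B ℓ) S P)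
    (ℓ : ℕ) [hℓ : Fact ℓ.Prime] (hL : ¬ ℓ ∣ 4 * ((n - 1) * (n - 2)))
    (hfull : FullLie ℓ (ρ ℓ) (B ℓ)) (hev : Even (Padic.valuation (B ℓ).det)) :
    StartData N S P := by
  have hLpos : 0 < 4 * ((n - 1) * (n - 2)) := by
    have h1 : 0 < n - 1 := by omega
    have h2 : 0 < n - 2 := by omega
    positivity
  have hd1 : 2 * (n - 1) ∣ 4 * ((n - 1) * (n - 2)) := ⟨2 * (n - 2), by ring⟩
  have hd2 : 2 * 1 ∣ 4 * ((n - 1) * (n - 2)) := ⟨2 * ((n - 1) * (n - 2)), by ring⟩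
  have hd3 : 2 * (n - 2) ∣ 4 * ((n - 1) * (n - 2)) := ⟨2 * (n - 1), by ring⟩
  have hd4 : 2 * 2 ∣ 4 * ((n - 1) * (n - 2)) := ⟨(n - 1) * (n - 2), by ring⟩
  have h2 : ℓ ≠ 2 := by
    rintro rfl
    exact hL (Dvd.dvd.mul_right (by norm_num) _)
  have hB := (hsys ℓ).2.1
  have hdet := (hsys ℓ).2.2.1
  have lt0 : LocalTypeE ℓ N (B ℓ) (ConA ℓ (n - 1) 1) :=
    lte_a hKRQ hFDA h2 (by omega) (by omega) (by omega) hB hdet hev
  have lt1 : LocalTypeE ℓ N (B ℓ) (ConA ℓ (n - 2) 2) :=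
    lte_a hKRQ hFDA h2 (by omega) (by omega) (by omega) hB hdet hev
  have lt3 : LocalTypeE ℓ N (B ℓ) (Con3 ℓ) :=
    lte_3 (m := n - 2) hKRQ hFDB hTYPD3 h2 (by omega) (by omega) hB hdet hev
  obtain ⟨v₀, hv₀S, hv₀m, hv₀d, hv₀⟩ := realiseE hMULTI hFROB hCHARE (by omega) hS ρ B hsys Unit
    (fun _ => ℓ) (fun _ _ _ => rfl) (fun _ => hfull) (fun _ => ConA ℓ (n - 1) 1) (fun _ => lt0)
  obtain ⟨v₁, hv₁S, hv₁m, hv₁d, hv₁⟩ := realiseE hMULTI hFROB hCHARE (by omega) hS ρ B hsys Unit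
    (fun _ => ℓ) (fun _ _ _ => rfl) (fun _ => hfull) (fun _ => ConA ℓ (n - 2) 2) (fun _ => lt1)
  obtain ⟨w, hwS, hwm, hwd, hw⟩ := realiseE hMULTI hFROB hCHARE (by omega) hS ρ B hsys Unit
    (fun _ => ℓ) (fun _ _ _ => rfl) (fun _ => hfull) (fun _ => Con3 ℓ) (fun _ => lt3)
  obtain ⟨τ, hτ⟩ := hTAME ℓ _ hLpos hL
  obtain ⟨j⟩ := emb ℓ
  obtain ⟨σ, hσ⟩ := restrict0 ℓ j (τ.restrictScalars ℚ_[ℓ])
  have hσ' : ∀ x : QQ, τ (j x) = j (σ x) := hσ
  have c0 := (hv₀ ()).1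
  have c1 := (hv₁ ()).1
  have c3 := (hw ()).1
  have i0 := inv_of_p (hv₀ ()).2
  have i1 := inv_of_p (hv₁ ()).2
  have n0 : NiceP S P v₀ := by
    obtain ⟨_, _, _, _, _, hb⟩ := c0
    exact nice_of_p hv₀S hv₀m ℓ hb.1 hb.2.1
  have n1 : NiceP S P v₁ := by
    obtain ⟨_, _, _, _, _, hb⟩ := c1
    exact nice_of_p hv₁S hv₁m ℓ hb.1 hb.2.1
  have g3 : GenO S P w := by
    obtain ⟨R₀, heven, hbij, ⟨hgen, h0⟩, -, -⟩ := c3
    exact genO_of_p (nice_of_p hwS hwm ℓ hbij.1 hbij.2.1) (sq_of_bij hbij heven h0) ℓ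
      (hbij.2.2.1 hgen)
  refine ⟨σ, fun d => if d = 2 ∨ d = 2 * n - 2 then v₁ else v₀, w, ?_, ?_, g3, ?_⟩
  · intro d
    beta_reduce
    by_cases hd : d = 2 ∨ d = 2 * n - 2
    · rw [if_pos hd]; exact n1
    · rw [if_neg hd]; exact n0
  · intro d hd0 hdN
    beta_reduce
    by_cases hd : d = 2 ∨ d = 2 * n - 2
    · rw [if_pos hd]
      obtain ⟨A₁, A₂, a1, a2, a3, a4, a5, a6, a7, a8, a9, a10⟩ := act_a (by omega) two_pos hv₁m c1 i1
        j τ hτ hd3 hd4 σ hσ'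
      exact cl_of_act a1 a2 a3 a4 a9 a10 (by omega) (by omega) (by omega) (by omega) (by omega)
        (by omega)
    · rw [if_neg hd]
      rw [not_or] at hd
      obtain ⟨A₁, A₂, a1, a2, a3, a4, a5, a6, a7, a8, a9, a10⟩ := act_a (by omega) one_pos hv₀m c0 i0
        j τ hτ hd1 hd2 σ hσ'
      exact cl_of_act a1 a2 a3 a4 a9 a10 (by omega) (by omega) (by omega) (by omega) (by omega)
        (by omega)
  · obtain ⟨R₀, heven, hbij, -, ⟨a, ha⟩, -⟩ := c3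
    obtain ⟨ψ, b1, b2, b3, b4, b5, b6⟩ := transferQ hwm hbij j τ σ hσ' heven
    have hr : aeval (algebraMap ℚ_[ℓ] (AlgebraicClosure ℚ_[ℓ]) a) R₀ = 0 := by
      rw [aeval_algebraMap_apply_eq_algebraMap_eval, ha, map_zero]
    refine ⟨ψ (algebraMap ℚ_[ℓ] (AlgebraicClosure ℚ_[ℓ]) a), b1 _ hr, ?_⟩
    rw [← b6 _ hr, ZS.fix_alg τ a]

/-- the main theorem with the full Lie algebra -/
theorem densityE {n : ℕ} (hn : 4 ≤ n) (hN : N = 2 * n) (hTAN : S_TAN) (hABS : S_ABS)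
    (hROOTE : S_ROOTE) (hBADD : S_BADD) (hPOS : S_POS) (hSUB : S_SUB) (hDISCE : S_DISCE)
    (hMULTI : S_MULTI) (hFROB : S_FROB)
    (hCHARE : S_CHARE) (hKRQ : S_KRQ) (hFDA : S_FDA) (hFDB : S_FDB) (hTYPD2 : S_TYPD2)
    (hTYPD3 : S_TYPD3) (hNR : S_NR) (hTAME : S_TAME) (hGEND : S_GEND) (hCLD : S_CLD)
    (hINT : S_INT) (hDENS2 : S_DENS2) (hS : S.Finite)
    (ρ : ∀ (ℓ : ℕ) [Fact ℓ.Prime], GK K →* Matrix (Fin N) (Fin N) ℚ_[ℓ])
    (B : ∀ (ℓ : ℕ) [Fact ℓ.Prime], Matrix (Fin N) (Fin N) ℚ_[ℓ])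
    (hsys : ∀ (ℓ : ℕ) [Fact ℓ.Prime], Orthogonal K N ℓ (ρ ℓ) (B ℓ) S P)
    (hstart : StartData N S P) :
    ZI.DensityZero {ℓ | ∃ _ : Fact ℓ.Prime, ¬ FullLie ℓ (ρ ℓ) (B ℓ)} := by
  classical
  have hinf := inf_open hTAN hABS hROOTE hBADD hPOS hSUB ρ B hsys hstart
  have hevb : ∃ b : ℕ, ∀ ℓ : ℕ, b < ℓ → ∀ _ : Fact ℓ.Prime, Even (Padic.valuation (B ℓ).det) := by
    obtain ⟨s, v, w, -, -, hw, -⟩ := hstart
    exact even_det hDISCE (by rw [hN]; exact even_two_mul n) ρ B hsys hw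
  obtain ⟨be, hbe⟩ := hevb
  -- the key construction
  have key : ∀ M : IntermediateField ℚ QQ, FiniteDimensional ℚ M →
      ∃ v : HeightOneSpectrum (𝓞 K), GenO S P v ∧ (P v).natDegree = N ∧
        (∀ (d : ℕ) (g : GK ℚ), 0 < d → d < N → ∃ h : GK ℚ, (∀ x ∈ M, h x = x) ∧
          g * h ∈ Cl (P v) d) ∧
        (∀ g : GK ℚ, ∃ h : GK ℚ, (∀ x ∈ M, h x = x) ∧ g * h ∈ Fx (P v)) := by
    intro M hM
    obtain ⟨f, hf, hMf, b, hb⟩ := hINT M hM
    set L : ℕ := 4 * ((n - 1) * (n - 2)) with hLdef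
    have hLpos : 0 < L := by
      have h1 : 0 < n - 1 := by omega
      have h2 : 0 < n - 2 := by omega
      positivity
    -- four primes
    set 𝒢 : Set ℕ := {ℓ | max (max b be) (max N L) < ℓ ∧ ∃ _ : Fact ℓ.Prime, FullLie ℓ (ρ ℓ) (B ℓ)}
      with h𝒢
    have h𝒢inf : 𝒢.Infinite := by
      apply Set.infinite_of_forall_exists_gt
      intro a
      obtain ⟨ℓ, hℓ, hp, hfull⟩ := hinf (max a (max (max b be) (max N L)))
      rw [max_lt_iff] at hℓ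
      exact ⟨ℓ, ⟨hℓ.2, hp, hfull⟩, hℓ.1⟩
    let e : ℕ ↪ 𝒢 := h𝒢inf.natEmbedding
    let p : Fin 4 → ℕ := fun i => (e i.1).1
    have hpinj : Function.Injective p := by
      intro i j hij
      exact Fin.ext (e.injective (Subtype.ext hij))
    have hpmem : ∀ i, p i ∈ 𝒢 := fun i => (e i.1).2
    haveI hpp : ∀ i, Fact (p i).Prime := fun i => (hpmem i).2.1
    have hpfull : ∀ i, FullLie (p i) (ρ (p i)) (B (p i)) := by
      intro i
      obtain ⟨-, h, h'⟩ := hpmem i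
      exact h'
    have hplt : ∀ i, (b < p i ∧ be < p i) ∧ N < p i ∧ L < p i := fun i => by
      have := (hpmem i).1
      simp only [max_lt_iff] at this
      exact this
    have hpL : ∀ i, ¬ p i ∣ L := fun i h => by
      have := Nat.le_of_dvd hLpos h
      have := (hplt i).2.2
      omega
    have hBi : ∀ i, (B (p i))ᵀ = B (p i) := fun i => (hsys (p i)).2.1
    have hBd : ∀ i, (B (p i)).det ≠ 0 := fun i => (hsys (p i)).2.2.1
    have hBe : ∀ i, Even (Padic.valuation (B (p i)).det) := fun i => hbe (p i) (hplt i).1.2 (hpp i)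
    let Con : ∀ i, ℚ_[p i][X] → Prop := fun i Q =>
      (i = 0 → ConA (p i) (n - 1) 1 Q) ∧ (i = 1 → ConA (p i) (n - 2) 2 Q) ∧
        (i = 2 → Con2 (p i) Q) ∧ (i = 3 → Con3 (p i) Q)
    have hlt : ∀ i, LocalTypeE (p i) N (B (p i)) (Con i) := by
      intro i
      have h2 : p i ≠ 2 := by have := (hplt i).2.1; omega
      by_cases hi0 : i = 0
      · refine (lte_a hKRQ hFDA h2 (a := n - 1) (b := 1) (by omega) (by omega) (by omega) (hBi i)
          (hBd i) (hBe i)).mono fun Q hQ => ⟨fun _ => hQ, fun h => ?_, fun h => ?_, fun h => ?_⟩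
        · exact absurd (h.symm.trans hi0) (by decide)
        · exact absurd (h.symm.trans hi0) (by decide)
        · exact absurd (h.symm.trans hi0) (by decide)
      by_cases hi1 : i = 1
      · refine (lte_a hKRQ hFDA h2 (a := n - 2) (b := 2) (by omega) (by omega) (by omega) (hBi i)
          (hBd i) (hBe i)).mono fun Q hQ => ⟨fun h => ?_, fun _ => hQ, fun h => ?_, fun h => ?_⟩
        · exact absurd (h.symm.trans hi1) (by decide)
        · exact absurd (h.symm.trans hi1) (by decide)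
        · exact absurd (h.symm.trans hi1) (by decide)
      by_cases hi2 : i = 2
      · refine (lte_2 (m := n - 2) hKRQ hFDB hTYPD2 (by omega)
          (by have := (hplt i).2.1; omega) (by omega) (hBi i)
          (hBd i) (hBe i)).mono fun Q hQ => ⟨fun h => ?_, fun h => ?_, fun _ => hQ, fun h => ?_⟩
        · exact absurd (h.symm.trans hi2) (by decide)
        · exact absurd (h.symm.trans hi2) (by decide)
        · exact absurd (h.symm.trans hi2) (by decide)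
      exact (lte_3 (m := n - 2) hKRQ hFDB hTYPD3 h2 (by omega) (by omega) (hBi i)
          (hBd i) (hBe i)).mono fun Q hQ => ⟨fun h => absurd h hi0, fun h => absurd h hi1,
            fun h => absurd h hi2, fun _ => hQ⟩
    obtain ⟨v, hvS, hmon, hdeg, hcon⟩ := realiseE hMULTI hFROB hCHARE (by omega) hS ρ B hsys (Fin 4)
      p hpinj hpfull Con hlt
    have c0 := (hcon 0).1.1 rfl
    have c1 := (hcon 1).1.2.1 rfl
    have c2 := (hcon 2).1.2.2.1 rfl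
    have c3 := (hcon 3).1.2.2.2 rfl
    have hinv := inv_of_p (hcon 0).2
    have hgen : GenO S P v := by
      obtain ⟨R₀, heven, hbij, ⟨hgen, h0⟩, -, -⟩ := c3
      exact genO_of_p (nice_of_p hvS hmon (p 3) hbij.1 hbij.2.1) (sq_of_bij hbij heven h0) (p 3)
        (hbij.2.2.1 hgen)
    obtain ⟨hfinR, hcardR⟩ := card_Rt hmon hgen.1.2.2.1
    letI : Fintype (Rt (P v)) := Fintype.ofFinite _
    rw [Nat.card_eq_fintype_card, hdeg] at hcardR
    have hsurj := surjE hGEND hNR hTAME hn hmon hinv hgen.2.1 M f hf hMf (p 0) (p 1) (p 2) (p 3)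
      (hb _ (hplt 0).1.1 (hpp 0).out) (hb _ (hplt 1).1.1 (hpp 1).out) (hb _ (hplt 2).1.1 (hpp 2).out)
      (hb _ (hplt 3).1.1 (hpp 3).out) (hpL 0) (hpL 1) (hpL 2) (hpL 3) c0 c1 c2 c3
    obtain ⟨hs1, hs2⟩ := coset hCLD hinv hgen.2.1 (by omega) M hsurj
    rw [hcardR] at hs1
    exact ⟨v, hgen, hdeg, hs1, hs2⟩
  -- the exceptional sets for the dimensions of subspaces
  have hB1 : ∀ d : ℕ, 0 < d → d < N →
      ZI.DensityZero {ℓ | ∃ _ : Fact ℓ.Prime, SubDim ℓ (ρ ℓ) d} := by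
    intro d hd0 hdN
    refine hDENS2 _ N.factorial (fun ℓ hℓ => hℓ.1.out) fun M hM => ?_
    obtain ⟨v, hgen, hdeg, hc, -⟩ := key M hM
    obtain ⟨b', hb'⟩ := hSUB (P v) hgen.1.2.1 hgen.1.2.2.1
    refine ⟨Lf (P v), Cl (P v) d, Lf_finite _, Lf_normal _, ?_, fun g hg h => cl_conj hg h,
      fun g hg u hu => cl_mul hg (fun x hx => hu x (mem_Lf hgen.1.2.1.ne_zero hx)),
      fun g => hc d g hd0 hdN, max b' (Ideal.absNorm v.asIdeal), ?_⟩
    · have := Lf_finrank hgen.1.2.2.1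
      rwa [hdeg] at this
    · rintro ℓ ⟨hp, hsub⟩ hℓ σ hσ hσC
      rw [max_lt_iff] at hℓ
      exact no_sub hBADD hgen.1 ℓ (not_mem_of_lt v hp.out hℓ.2) (ρ ℓ) (B ℓ) (hsys ℓ) hσC
        (hb' ℓ hℓ.1 hp σ hσ).1 hsub
  -- the last exceptional set
  have hB2 : ZI.DensityZero {ℓ | ∃ _ : Fact ℓ.Prime, ¬ FullLie ℓ (ρ ℓ) (B ℓ) ∧
      StronglyIrreducible ℓ (ρ ℓ)} := by
    refine hDENS2 _ N.factorial (fun ℓ hℓ => hℓ.1.out) fun M hM => ?_
    obtain ⟨v, hgen, hdeg, -, hc⟩ := key M hM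
    obtain ⟨b', hb'⟩ := hSUB (P v) hgen.1.2.1 hgen.1.2.2.1
    refine ⟨Lf (P v), Fx (P v), Lf_finite _, Lf_normal _, ?_, fun g hg h => fx_conj hg h,
      fun g hg u hu => fx_mul hg (fun x hx => hu x (mem_Lf hgen.1.2.1.ne_zero hx)), hc,
      max b' (Ideal.absNorm v.asIdeal), ?_⟩
    · have := Lf_finrank hgen.1.2.2.1
      rwa [hdeg] at this
    · rintro ℓ ⟨hp, hnf, hstr⟩ hℓ σ hσ hσC
      rw [max_lt_iff] at hℓ
      exact hnf (full_of hTAN hABS hROOTE hgen ℓ (not_mem_of_lt v hp.out hℓ.2) (ρ ℓ) (B ℓ)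
        (hsys ℓ) ((hb' ℓ hℓ.1 hp σ hσ).2 hσC) hstr)
  have hB3 : ∀ D : ℕ, D ≤ N → ZI.DensityZero {ℓ | ∃ _ : Fact ℓ.Prime, ∃ d, 0 < d ∧ d < D ∧
      SubDim ℓ (ρ ℓ) d} := by
    intro D
    induction D with
    | zero =>
      intro _
      have hz : ZI.DensityZero (∅ : Set ℕ) := by
        unfold ZI.DensityZero
        simp
      refine hz.mono ?_
      rintro ℓ ⟨_, d, _, hd, _⟩
      exact absurd hd (Nat.not_lt_zero _)
    | succ D ih =>
      intro hD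
      rcases Nat.eq_zero_or_pos D with h0 | h0
      · refine (ih (by omega)).mono ?_
        rintro ℓ ⟨_, d, hd0, hd, _⟩
        omega
      · refine ((ih (by omega)).union (hB1 D h0 (by omega))).mono ?_
        rintro ℓ ⟨hp, d, hd0, hd, hsub⟩
        rcases (Nat.lt_succ_iff_lt_or_eq.1 hd) with h | h
        · exact Or.inl ⟨hp, d, hd0, h, hsub⟩
        · exact Or.inr ⟨hp, h ▸ hsub⟩
  refine ((hB3 N le_rfl).union hB2).mono ?_
  rintro ℓ ⟨hp, hno⟩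
  by_cases hs : ∃ d, 0 < d ∧ d < N ∧ SubDim ℓ (ρ ℓ) d
  · exact Or.inl ⟨hp, hs⟩
  · right
    refine ⟨hp, hno, strong_iff ℓ (ρ ℓ) fun d hd0 hdN hsub => hs ⟨d, hd0, hdN, hsub⟩⟩

end

end Pool.Agent.Y142.ZD
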