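import Pool.Agent.Y142.ZD.Basic
import Pool.Agent.Y142.ZS.Types

/-!
# Project ZD: local types
-/

set_option autoImplicit false
set_option linter.style.haveILetI false
set_option linter.unusedSectionVars false

open Matrix Polynomial Filter Topology NumberField IsDedekindDomain
open Pool.Agent.Y142.ZO Pool.Agent.Y142.ZI
open Pool.Agent.Y142.ZS (Generic NiceP restrict0)

namespace Pool.Agent.Y142.ZD

/-- the condition `Con` on `Q` follows from closeness to a suitable tangent vector -/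
def LocalTypeE (ℓ : ℕ) [Fact ℓ.Prime] (N : ℕ) (B : Matrix (Fin N) (Fin N) ℚ_[ℓ])
    (Con : ℚ_[ℓ][X] → Prop) : Prop :=
  ∃ (T : Matrix (Fin N) (Fin N) ℚ_[ℓ]) (ε : ℝ) (k₀ : ℕ), Skew B T ∧
    0 < ε ∧ ∀ (k : ℕ) (Q : ℚ_[ℓ][X]), k₀ ≤ k → Q.Monic → Q.natDegree = N →
      (∀ x : AlgebraicClosure ℚ_[ℓ], aeval x Q = 0 → x ≠ 0 ∧ aeval x⁻¹ Q = 0) →
      (∀ j, ‖(resc ℓ k Q - T.charpoly).coeff j‖ < ε) → Con Q

/-- type with two ramified blocks -/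
def ConA (ℓ : ℕ) [Fact ℓ.Prime] (a b : ℕ) (Q : ℚ_[ℓ][X]) : Prop :=
  ∃ c₁ c₂ : ℚ_[ℓ], ‖c₁‖ = (ℓ : ℝ)⁻¹ ∧ ‖c₂‖ = (ℓ : ℝ)⁻¹ ∧
    ((X ^ (2 * a) - C c₁) * (X ^ (2 * b) - C c₂) : ℚ_[ℓ][X]).Separable ∧
    RootBij ℓ ((X ^ (2 * a) - C c₁) * (X ^ (2 * b) - C c₂)) Q

/-- type transposition -/
def Con2 (ℓ : ℕ) [Fact ℓ.Prime] (Q : ℚ_[ℓ][X]) : Prop :=
  ∃ R₀ : ℚ_[ℓ][X], R₀.comp (-X) = R₀ ∧ RootBij ℓ R₀ Q ∧
    ∀ (L : ℕ) (τ : AlgebraicClosure ℚ_[ℓ] ≃ₐ[NR ℓ] AlgebraicClosure ℚ_[ℓ]), 2 ∣ L → Tame ℓ L τ →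
      ∃ x y : AlgebraicClosure ℚ_[ℓ], aeval x R₀ = 0 ∧
        aeval y R₀ = 0 ∧ y ≠ x ∧ y ≠ -x ∧ τ x = y ∧ τ y = x ∧
        ∀ z, aeval z R₀ = 0 → z ≠ x → z ≠ -x → z ≠ y → z ≠ -y → τ z = z

/-- type double sign change, generic -/
def Con3 (ℓ : ℕ) [Fact ℓ.Prime] (Q : ℚ_[ℓ][X]) : Prop :=
  ∃ R₀ : ℚ_[ℓ][X], R₀.comp (-X) = R₀ ∧ RootBij ℓ R₀ Q ∧ (GenSum ℓ R₀ ∧ R₀.eval 0 ≠ 0) ∧
    (∃ a : ℚ_[ℓ], R₀.eval a = 0) ∧
    ∀ (L : ℕ) (τ : AlgebraicClosure ℚ_[ℓ] ≃ₐ[NR ℓ] AlgebraicClosure ℚ_[ℓ]), 2 ∣ L → Tame ℓ L τ →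
      ∃ x y : AlgebraicClosure ℚ_[ℓ], aeval x R₀ = 0 ∧
        aeval y R₀ = 0 ∧ y ≠ x ∧ y ≠ -x ∧ τ x = -x ∧ τ y = -y ∧
        ∀ z, aeval z R₀ = 0 → z ≠ x → z ≠ -x → z ≠ y → z ≠ -y → τ z = z

section
variable {ℓ : ℕ} [hℓ : Fact ℓ.Prime]

theorem LocalTypeE.mono {N : ℕ} {B : Matrix (Fin N) (Fin N) ℚ_[ℓ]} {C₁ C₂ : ℚ_[ℓ][X] → Prop}
    (h : LocalTypeE ℓ N B C₁) (h12 : ∀ Q, C₁ Q → C₂ Q) : LocalTypeE ℓ N B C₂ := by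
  obtain ⟨T, ε, k₀, h1, h3, h4⟩ := h
  exact ⟨T, ε, k₀, h1, h3, fun k Q z a b d e => h12 Q (h4 k Q z a b d e)⟩

/-- zero is not a root of a separable even polynomial -/
theorem eval_zero_ne {R₀ : ℚ_[ℓ][X]} (heven : R₀.comp (-X) = R₀) (hsep : R₀.Separable) :
    R₀.eval 0 ≠ 0 := by
  intro h0
  have h1 := congrArg derivative heven
  rw [derivative_comp] at h1
  have h2 := congrArg (eval 0) h1
  simp only [eval_mul, eval_comp, derivative_neg, derivative_X, eval_neg, eval_X, neg_zero,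
    eval_one] at h2
  have h3' : (2 : ℚ_[ℓ]) * (derivative R₀).eval 0 = 0 := by linear_combination (-1 : ℚ_[ℓ]) * h2
  have h3 : (derivative R₀).eval 0 = 0 := (mul_eq_zero.1 h3').resolve_left two_ne_zero
  obtain ⟨a, b, hab⟩ := hsep
  have h4 := congrArg (eval 0) hab
  rw [eval_add, eval_mul, eval_mul, h0, h3, mul_zero, mul_zero, add_zero, eval_one] at h4
  exact zero_ne_one h4

theorem lte_of {N : ℕ} {B : Matrix (Fin N) (Fin N) ℚ_[ℓ]} (hKRQ : S_KRQ) (h2 : ℓ ≠ 2)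
    {T : Matrix (Fin N) (Fin N) ℚ_[ℓ]} (hT : Skew B T) {R₀ : ℚ_[ℓ][X]} (hTR : T.charpoly = R₀)
    (hsep : R₀.Separable) (heven : R₀.comp (-X) = R₀) : LocalTypeE ℓ N B (RootBij ℓ R₀) := by
  have hm : R₀.Monic := by rw [← hTR]; exact charpoly_monic T
  have hd : R₀.natDegree = N := by
    rw [← hTR, charpoly_natDegree_eq_dim, Fintype.card_fin]
  obtain ⟨ε, k₀, hε, h⟩ := hKRQ ℓ h2 R₀ hm hsep heven
  refine ⟨T, ε, k₀, hT, hε, fun k Q hk hQ hQd hinv hclose => ?_⟩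
  rw [hTR] at hclose
  exact h k Q hk hQ (hQd.trans hd.symm) hinv hclose

theorem even_ab (a b : ℕ) (c₁ c₂ : ℚ_[ℓ]) :
    ((X ^ (2 * a) - C c₁) * (X ^ (2 * b) - C c₂) : ℚ_[ℓ][X]).comp (-X) =
      (X ^ (2 * a) - C c₁) * (X ^ (2 * b) - C c₂) := by
  rw [mul_comp, sub_comp, sub_comp, pow_comp, pow_comp, X_comp, C_comp, C_comp, pow_mul, neg_sq,
    ← pow_mul, pow_mul (-X), neg_sq, ← pow_mul]

theorem even_RA {m : ℕ} (c₁ c₂ : ℚ_[ℓ]) (A : Matrix (Fin m) (Fin m) ℚ_[ℓ]) :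
    (RA c₁ c₂ A).comp (-X) = RA c₁ c₂ A := by
  obtain ⟨-, -, h⟩ := ZS.even_A A c₂
  have e : RA c₁ c₂ A = (X ^ 2 - C c₁) * ((X ^ 2 - C c₂) * A.charpoly * (-A).charpoly) := by
    unfold RA
    ring
  rw [e, mul_comp, h, sub_comp, pow_comp, X_comp, C_comp, neg_sq]

theorem lte_a {a b N : ℕ} {B : Matrix (Fin N) (Fin N) ℚ_[ℓ]} (hKRQ : S_KRQ) (hFDA : S_FDA)
    (h2 : ℓ ≠ 2) (ha : 0 < a) (hb : 0 < b) (hN : N = 2 * a + 2 * b) (hB : Bᵀ = B)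
    (hdet : B.det ≠ 0) (hev : Even (Padic.valuation B.det)) :
    LocalTypeE ℓ N B (ConA ℓ a b) := by
  obtain ⟨T, c₁, c₂, hT, h3, h4, h5, h6⟩ := hFDA ℓ h2 a b N ha hb hN B hB hdet hev
  rw [h5] at h6
  exact (lte_of hKRQ h2 hT h5 h6 (even_ab a b c₁ c₂)).mono fun Q hQ => ⟨c₁, c₂, h3, h4, h6, hQ⟩

theorem lte_2 {m N : ℕ} {B : Matrix (Fin N) (Fin N) ℚ_[ℓ]} (hKRQ : S_KRQ) (hFDB : S_FDB)
    (hTYPD2 : S_TYPD2) (hm : 2 ≤ m) (hlt : 2 * m + 4 < ℓ) (hN : N = 2 * m + 4) (hB : Bᵀ = B)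
    (hdet : B.det ≠ 0) (hev : Even (Padic.valuation B.det)) :
    LocalTypeE ℓ N B (Con2 ℓ) := by
  have h2 : ℓ ≠ 2 := by omega
  obtain ⟨-, u₁, u₂, hu₁, hu₂, h⟩ := hFDB ℓ h2 m N hN B hB hdet hev
  obtain ⟨s₁, s₂, A, hs₁, hs₂, hsep, hτ⟩ := hTYPD2 ℓ m hm hlt u₁ u₂ hu₁ hu₂
  obtain ⟨T, hT, hTc⟩ := h s₁ s₂ A hs₁ hs₂
  exact (lte_of hKRQ h2 hT hTc hsep (even_RA _ _ A)).mono
    fun Q hQ => ⟨_, even_RA _ _ A, hQ, hτ⟩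

theorem lte_3 {m N : ℕ} {B : Matrix (Fin N) (Fin N) ℚ_[ℓ]} (hKRQ : S_KRQ) (hFDB : S_FDB)
    (hTYPD3 : S_TYPD3) (h2 : ℓ ≠ 2) (hm : 0 < m) (hN : N = 2 * m + 4) (hB : Bᵀ = B)
    (hdet : B.det ≠ 0) (hev : Even (Padic.valuation B.det)) :
    LocalTypeE ℓ N B (Con3 ℓ) := by
  obtain ⟨⟨u₁, u₂, hu₁, hu₂, h⟩, -⟩ := hFDB ℓ h2 m N hN B hB hdet hev
  obtain ⟨s₁, s₂, A, hs₁, hs₂, hsep, hgen, hroot, hτ⟩ := hTYPD3 ℓ h2 m hm u₁ u₂ hu₁ hu₂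
  obtain ⟨T, hT, hTc⟩ := h s₁ s₂ A hs₁ hs₂
  exact (lte_of hKRQ h2 hT hTc hsep (even_RA _ _ A)).mono
    fun Q hQ => ⟨_, even_RA _ _ A, hQ, ⟨hgen, eval_zero_ne (even_RA _ _ A) hsep⟩, hroot, hτ⟩

end

section
variable {K : Type} [Field K] [NumberField K] {N : ℕ} {S : Set (HeightOneSpectrum (𝓞 K))}
  {P : HeightOneSpectrum (𝓞 K) → ℚ[X]}

/-- simultaneous realisation of local types -/
theorem realiseE (hMULTI : S_MULTI) (hFROB : S_FROB) (hCHARE : S_CHARE) (hN : 0 < N)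
    (hS : S.Finite)
    (ρ : ∀ (ℓ : ℕ) [Fact ℓ.Prime], GK K →* Matrix (Fin N) (Fin N) ℚ_[ℓ])
    (B : ∀ (ℓ : ℕ) [Fact ℓ.Prime], Matrix (Fin N) (Fin N) ℚ_[ℓ])
    (hsys : ∀ (ℓ : ℕ) [Fact ℓ.Prime], Orthogonal K N ℓ (ρ ℓ) (B ℓ) S P)
    (I : Type) [Fintype I] [Nonempty I] (p : I → ℕ) [hp : ∀ i, Fact (p i).Prime]
    (hinj : Function.Injective p) (hfull : ∀ i, FullLie (p i) (ρ (p i)) (B (p i)))
    (Con : ∀ i, ℚ_[p i][X] → Prop)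
    (hlt : ∀ i, LocalTypeE (p i) N (B (p i)) (Con i)) :
    ∃ v : HeightOneSpectrum (𝓞 K), v ∉ S ∧ (P v).Monic ∧ (P v).natDegree = N ∧
      ∀ i, Con i ((P v).map (algebraMap ℚ ℚ_[p i])) ∧
        ∀ x : AlgebraicClosure ℚ_[p i], aeval x ((P v).map (algebraMap ℚ ℚ_[p i])) = 0 →
          x ≠ 0 ∧ aeval x⁻¹ ((P v).map (algebraMap ℚ ℚ_[p i])) = 0 := by
  classical
  choose T ε k₀' hT hε hcon using hlt
  have hchar : ∀ i, ∃ (δ : ℝ) (k₀ : ℕ), 0 < δ ∧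
      ∀ (k : ℕ) (g : Matrix (Fin N) (Fin N) ℚ_[p i]), k₀ ≤ k → Isom (B (p i)) g →
      (∀ a b, ‖((((p i : ℚ_[p i]) ^ k)⁻¹ • (g - 1)) - T i) a b‖ < δ) →
      (∀ j, ‖(resc (p i) k g.charpoly - (T i).charpoly).coeff j‖ < ε i) ∧
        ∀ x : AlgebraicClosure ℚ_[p i], aeval x g.charpoly = 0 →
          x ≠ 0 ∧ aeval x⁻¹ g.charpoly = 0 := by
    intro i
    exact hCHARE (p i) N hN (B (p i)) (T i) (hsys (p i)).2.2.1 (ε i) (hε i)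
  choose δ k₀ hδ hchar using hchar
  have hδ' : ∃ d : ℝ, 0 < d ∧ ∀ i, d ≤ δ i := by
    refine ⟨Finset.univ.inf' Finset.univ_nonempty δ, ?_, fun i => Finset.inf'_le _ (Finset.mem_univ i)⟩
    rw [Finset.lt_inf'_iff]
    exact fun i _ => hδ i
  obtain ⟨d, hd, hdδ⟩ := hδ'
  set k₁ : ℕ := (Finset.univ.sup k₀ + Finset.univ.sup k₀') + 1 with hk₁
  have hk₁' : ∀ i, k₀ i ≤ k₁ := fun i => by
    have := Finset.le_sup (f := k₀) (Finset.mem_univ i)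
    omega
  have hk₁'' : ∀ i, k₀' i ≤ k₁ := fun i => by
    have := Finset.le_sup (f := k₀') (Finset.mem_univ i)
    omega
  obtain ⟨O, hO, hOne, hOσ⟩ := hMULTI (GK K) N I p hinj (fun i => ρ (p i)) (fun i => (hsys (p i)).1) T
    (fun i => hfull i (T i) (hT i)) d k₁ hd
  have hfin : (S ∪ ⋃ i, {v : HeightOneSpectrum (𝓞 K) | (p i : 𝓞 K) ∈ v.asIdeal}).Finite :=
    hS.union (Set.finite_iUnion fun i => finite_above (p i) (hp i).out)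
  obtain ⟨v, hv, σ, hσ, hσO⟩ := hFROB K O hO hOne _ hfin
  rw [Set.mem_union, not_or, Set.mem_iUnion, not_exists] at hv
  obtain ⟨i₀⟩ := ‹Nonempty I›
  have hPi : (ρ (p i₀) σ⁻¹).charpoly = (P v).map (algebraMap ℚ ℚ_[p i₀]) :=
    (hsys (p i₀)).2.2.2.2 v hv.1 (hv.2 i₀) σ hσ
  have hPm : (P v).Monic := by
    have h2 := charpoly_monic (ρ (p i₀) σ⁻¹)
    rw [hPi] at h2
    exact monic_of_injective (algebraMap ℚ ℚ_[p i₀]).injective h2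
  have hPd : (P v).natDegree = N := by
    have h3 := charpoly_natDegree_eq_dim (ρ (p i₀) σ⁻¹)
    rw [hPi, natDegree_map, Fintype.card_fin] at h3
    exact h3
  refine ⟨v, hv.1, hPm, hPd, fun i => ?_⟩
  obtain ⟨k, hk, hclose⟩ := hOσ σ⁻¹ hσO i
  have hP := (hsys (p i)).2.2.2.2 v hv.1 (hv.2 i) σ hσ
  obtain ⟨hrc, hinv⟩ := hchar i k (ρ (p i) σ⁻¹) ((hk₁' i).trans hk)
    ((hsys (p i)).2.2.2.1 _) (fun a b => (hclose a b).trans_le (hdδ i))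
  rw [hP] at hrc hinv
  exact ⟨hcon i k _ ((hk₁'' i).trans hk) (hPm.map _) (by rw [natDegree_map]; exact hPd) hinv hrc,
    hinv⟩

end

/-! ### action on the roots in the closure of `ℚ` -/

section
variable {ℓ : ℕ} [hℓ : Fact ℓ.Prime] {Q : ℚ[X]}

/-- the action of the tame element for the type with two ramified blocks -/
theorem act_a {a b : ℕ} (ha : 0 < a) (hb : 0 < b) (hQ : Q.Monic)
    (hC : ConA ℓ a b (Q.map (algebraMap ℚ ℚ_[ℓ])))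
    (hinvQ : ∀ x : QQ, aeval x Q = 0 → x ≠ 0 ∧ aeval x⁻¹ Q = 0)
    (ι : QQ →+* AlgebraicClosure ℚ_[ℓ]) {L : ℕ}
    (τ : AlgebraicClosure ℚ_[ℓ] ≃ₐ[NR ℓ] AlgebraicClosure ℚ_[ℓ]) (hτ : Tame ℓ L τ)
    (hLa : 2 * a ∣ L) (hLb : 2 * b ∣ L) (σ : GK ℚ) (hσ : ∀ x : QQ, τ (ι x) = ι (σ x)) :
    ∃ A₁ A₂ : Set QQ, (∀ x, aeval x Q = 0 ↔ x ∈ A₁ ∨ x ∈ A₂) ∧ (∀ x ∈ A₁, x ∉ A₂) ∧
      A₁.ncard = 2 * a ∧ A₂.ncard = 2 * b ∧ (∀ x ∈ A₁, x⁻¹ ∈ A₁) ∧ (∀ x ∈ A₂, x⁻¹ ∈ A₂) ∧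
      (∀ x ∈ A₁, σ x ∈ A₁) ∧ (∀ x ∈ A₂, σ x ∈ A₂) ∧
      (∀ x ∈ A₁, ∀ y ∈ A₁, ∃ k : ℕ, (σ ^ k) x = y) ∧
      (∀ x ∈ A₂, ∀ y ∈ A₂, ∃ k : ℕ, (σ ^ k) x = y) := by
  classical
  obtain ⟨c₁, c₂, hc₁, hc₂, hsep0, hsep, -, -, φ, h1, h2, h3, h4, h5⟩ := hC
  set R₀ : ℚ_[ℓ][X] := (X ^ (2 * a) - C c₁) * (X ^ (2 * b) - C c₂) with hR₀
  have hQ0 : Q ≠ 0 := hQ.ne_zero
  -- the roots of `R₀`
  have hroot : ∀ r : AlgebraicClosure ℚ_[ℓ], aeval r R₀ = 0 ↔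
      r ^ (2 * a) = algebraMap ℚ_[ℓ] (AlgebraicClosure ℚ_[ℓ]) c₁ ∨ r ^ (2 * b) = algebraMap ℚ_[ℓ] (AlgebraicClosure ℚ_[ℓ]) c₂ := by
    intro r
    rw [hR₀, map_mul, mul_eq_zero, map_sub, map_sub, map_pow, map_pow, aeval_X, aeval_C, aeval_C,
      sub_eq_zero, sub_eq_zero]
  have hdisj : ∀ r : AlgebraicClosure ℚ_[ℓ], r ^ (2 * a) = algebraMap ℚ_[ℓ] (AlgebraicClosure ℚ_[ℓ]) c₁ →
      r ^ (2 * b) = algebraMap ℚ_[ℓ] (AlgebraicClosure ℚ_[ℓ]) c₂ → False := by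
    intro r hr1 hr2
    have hcop : IsCoprime (X ^ (2 * a) - C c₁ : ℚ_[ℓ][X]) (X ^ (2 * b) - C c₂) :=
      hsep0.isCoprime
    obtain ⟨u, w, huw⟩ := hcop
    have h6 := congrArg (aeval r) huw
    rw [map_add, map_mul, map_mul, map_sub, map_sub, map_pow, map_pow, aeval_X, aeval_C, aeval_C,
      hr1, hr2, sub_self, sub_self, mul_zero, mul_zero, zero_add, map_one] at h6
    exact zero_ne_one h6
  -- lifting
  have hlift : ∀ r : AlgebraicClosure ℚ_[ℓ], aeval r R₀ = 0 → ∃ x : QQ, aeval x Q = 0 ∧ ι x = φ r :=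
    fun r hr => lift_root ℓ ι hQ0 (h1 r hr)
  have hpow : ∀ (k : ℕ) (x : QQ), (τ ^ k) (ι x) = ι ((σ ^ k) x) :=
    fun k x => pow_restrict ℓ ι _ τ σ hσ k x
  have h5' : ∀ (r : AlgebraicClosure ℚ_[ℓ]), aeval r R₀ = 0 → φ (τ r) = τ (φ r) :=
    fun r hr => h5 (τ.restrictScalars ℚ_[ℓ]) r hr
  have hτroot : ∀ r : AlgebraicClosure ℚ_[ℓ], aeval r R₀ = 0 → aeval (τ r) R₀ = 0 := by
    intro r hr
    have := aeval_algHom_apply (τ.restrictScalars ℚ_[ℓ]).toAlgHom r R₀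
    rw [hr, map_zero] at this
    exact this
  have h5k : ∀ (k : ℕ) (r : AlgebraicClosure ℚ_[ℓ]), aeval r R₀ = 0 → aeval ((τ ^ k) r) R₀ = 0 ∧
      φ ((τ ^ k) r) = (τ ^ k) (φ r) := by
    intro k
    induction k with
    | zero => intro r hr; exact ⟨hr, rfl⟩
    | succ k ih =>
      intro r hr
      obtain ⟨i1, i2⟩ := ih (τ r) (hτroot r hr)
      rw [pow_succ, AlgEquiv.mul_apply]
      refine ⟨i1, ?_⟩
      rw [i2, h5' r hr, AlgEquiv.mul_apply]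
  -- general statement for one block
  have key : ∀ (e : ℕ) (c : ℚ_[ℓ]), 0 < e → e ∣ L → ‖c‖ = (ℓ : ℝ)⁻¹ → Even e →
      (∀ r : AlgebraicClosure ℚ_[ℓ], r ^ e = algebraMap ℚ_[ℓ] (AlgebraicClosure ℚ_[ℓ]) c → aeval r R₀ = 0) →
      ({x : QQ | aeval x Q = 0 ∧ ∃ r : AlgebraicClosure ℚ_[ℓ], r ^ e = algebraMap ℚ_[ℓ] (AlgebraicClosure ℚ_[ℓ]) c ∧ φ r = ι x}.ncard = e ∧
      (∀ x ∈ {x : QQ | aeval x Q = 0 ∧ ∃ r : AlgebraicClosure ℚ_[ℓ], r ^ e = algebraMap ℚ_[ℓ] (AlgebraicClosure ℚ_[ℓ]) c ∧ φ r = ι x},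
        x⁻¹ ∈ {x : QQ | aeval x Q = 0 ∧ ∃ r : AlgebraicClosure ℚ_[ℓ], r ^ e = algebraMap ℚ_[ℓ] (AlgebraicClosure ℚ_[ℓ]) c ∧ φ r = ι x}) ∧
      (∀ x ∈ {x : QQ | aeval x Q = 0 ∧ ∃ r : AlgebraicClosure ℚ_[ℓ], r ^ e = algebraMap ℚ_[ℓ] (AlgebraicClosure ℚ_[ℓ]) c ∧ φ r = ι x},
        σ x ∈ {x : QQ | aeval x Q = 0 ∧ ∃ r : AlgebraicClosure ℚ_[ℓ], r ^ e = algebraMap ℚ_[ℓ] (AlgebraicClosure ℚ_[ℓ]) c ∧ φ r = ι x}) ∧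
      (∀ x ∈ {x : QQ | aeval x Q = 0 ∧ ∃ r : AlgebraicClosure ℚ_[ℓ], r ^ e = algebraMap ℚ_[ℓ] (AlgebraicClosure ℚ_[ℓ]) c ∧ φ r = ι x},
        ∀ y ∈ {x : QQ | aeval x Q = 0 ∧ ∃ r : AlgebraicClosure ℚ_[ℓ], r ^ e = algebraMap ℚ_[ℓ] (AlgebraicClosure ℚ_[ℓ]) c ∧ φ r = ι x},
          ∃ k : ℕ, (σ ^ k) x = y)) := by
    intro e c he heL hc heven hsub
    have hc0 : c ≠ 0 := by
      rintro rfl
      rw [norm_zero] at hc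
      have : (0 : ℝ) < (ℓ : ℝ)⁻¹ := by
        have := hℓ.out.pos
        positivity
      rw [← hc] at this
      exact lt_irrefl _ this
    refine ⟨?_, ?_, ?_, ?_⟩
    · -- the number of elements
      have hcardR : {r : AlgebraicClosure ℚ_[ℓ] | r ^ e = algebraMap ℚ_[ℓ] (AlgebraicClosure ℚ_[ℓ]) c}.ncard = e := by
        have hs : (X ^ e - C c : ℚ_[ℓ][X]).Separable := by
          apply separable_X_pow_sub_C c _ hc0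
          exact_mod_cast he.ne'
        have hd := card_rootSet_eq_natDegree (K := AlgebraicClosure ℚ_[ℓ]) hs (IsAlgClosed.splits _)
        rw [natDegree_X_pow_sub_C, ← Nat.card_eq_fintype_card, Nat.card_coe_set_eq] at hd
        refine Eq.trans ?_ hd
        congr 1
        ext r
        rw [mem_rootSet_of_ne (X_pow_sub_C_ne_zero he c), map_sub, map_pow, aeval_X, aeval_C,
          sub_eq_zero]
        rfl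
      refine Eq.trans ?_ hcardR
      choose! ψ hψ1 hψ2 using hlift
      have himg : {x : QQ | aeval x Q = 0 ∧ ∃ r : AlgebraicClosure ℚ_[ℓ], r ^ e = algebraMap ℚ_[ℓ] (AlgebraicClosure ℚ_[ℓ]) c ∧ φ r = ι x} =
          ψ '' {r : AlgebraicClosure ℚ_[ℓ] | r ^ e = algebraMap ℚ_[ℓ] (AlgebraicClosure ℚ_[ℓ]) c} := by
        ext x
        constructor
        · rintro ⟨-, r, hr, hrx⟩
          refine ⟨r, hr, ?_⟩
          apply ι.injective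
          rw [hψ2 r (hsub r hr), hrx]
        · rintro ⟨r, hr, rfl⟩
          exact ⟨hψ1 r (hsub r hr), r, hr, (hψ2 r (hsub r hr)).symm⟩
      rw [himg]
      apply Set.InjOn.ncard_image
      intro r hr s hs hrs
      apply h2 r s (hsub r hr) (hsub s hs)
      rw [← hψ2 r (hsub r hr), ← hψ2 s (hsub s hs)]
      exact congrArg ι hrs
    · rintro x ⟨hx, r, hr, hrx⟩
      refine ⟨(hinvQ x hx).2, -r, ?_, ?_⟩
      · rw [heven.neg_pow]; exact hr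
      · rw [h4 r (hsub r hr), hrx, map_inv₀]
    · rintro x ⟨hx, r, hr, hrx⟩
      refine ⟨aeval_aut σ hx, τ r, ?_, ?_⟩
      · rw [← map_pow, hr]
        exact ZS.fix_alg τ c
      · rw [h5' r (hsub r hr), hrx, hσ]
    · rintro x ⟨hx, r, hr, hrx⟩ y ⟨hy, s, hs, hsy⟩
      obtain ⟨k, hk⟩ := hτ e c r s heL hc hr hs
      refine ⟨k, ?_⟩
      apply ι.injective
      rw [← hpow, ← hrx, ← (h5k k r (hsub r hr)).2, hk, hsy]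
  obtain ⟨a1, a2, a3, a4⟩ := key (2 * a) c₁ (by omega) hLa hc₁ ⟨a, by ring⟩
    (fun r hr => (hroot r).2 (Or.inl hr))
  obtain ⟨b1, b2, b3, b4⟩ := key (2 * b) c₂ (by omega) hLb hc₂ ⟨b, by ring⟩
    (fun r hr => (hroot r).2 (Or.inr hr))
  refine ⟨_, _, ?_, ?_, a1, b1, a2, b2, a3, b3, a4, b4⟩
  · intro x
    constructor
    · intro hx
      obtain ⟨r, hr, hrx⟩ := h3 (ι x) (push_root ℓ ι hx)
      rcases (hroot r).1 hr with h | h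
      · exact Or.inl ⟨hx, r, h, hrx⟩
      · exact Or.inr ⟨hx, r, h, hrx⟩
    · rintro (h | h)
      · exact h.1
      · exact h.1
  · rintro x ⟨hx, r, hr, hrx⟩ ⟨-, s, hs, hsx⟩
    have h6 : r = s := h2 r s ((hroot r).2 (Or.inl hr)) ((hroot s).2 (Or.inr hs)) (by rw [hrx, hsx])
    subst h6
    exact hdisj r hr hs

end

end Pool.Agent.Y142.ZD
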